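import Pool.Agent.Helper48.HY.Dim2

/-! # EXC: a free linear space in a smooth complete intersection -/

set_option autoImplicit false
set_option linter.unusedSectionVars false

namespace Pool.Agent.Helper48.HY

open MvPolynomial Pool.Agent.Helper4.HY Pool.Agent.Helper4.QH

universe u v w

section
variable {k : Type u} [Field k] [CharZero k] [IsAlgClosed k] {a r N m : ℕ} {e : Fin r → ℕ}

/-- a generic point -/
theorem generic2 {F : Fin r → MvPolynomial (Fin N) k}
    {D : Fin r → Fin m → MvPolynomial (Fin N) k} (hs : Nsg F D)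
    (hF : ∀ i, (F i).IsHomogeneous (e i + 1)) (hD : ∀ i l, (D i l).IsHomogeneous (e i))
    (hN : Fintype.card (Σ i : Fin r, AA (a + 1) (e i + 1)) + Fintype.card (GG (a + 1) r e) ≤ N)
    (hM : 0 < Fintype.card (GG (a + 1) r e)) :
    ∃ (KK : Type u) (_ : Field KK) (_ : Algebra k KK) (P : Fin (a + 1) → Fin N → KK),
      (∀ (i : Fin r) (γ : AA (a + 1) (e i + 1)), coeff γ.1 (pol (F i) P) = 0) ∧
      ∀ lam : GG (a + 1) r e → KK, (∀ l, ∑ p, lam p * coeff p.2.1 (pol (D p.1 l) P) = 0) →
        lam = 0 := by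
  classical
  obtain ⟨M₁, hM₁⟩ : ∃ M₁, M₁ = Fintype.card (Σ i : Fin r, AA (a + 1) (e i + 1)) := ⟨_, rfl⟩
  obtain ⟨M₂, hM₂⟩ : ∃ M₂, M₂ = Fintype.card (GG (a + 1) r e) := ⟨_, rfl⟩
  rw [← hM₁, ← hM₂] at hN
  rw [← hM₂] at hM
  obtain ⟨t, ht⟩ : ∃ t, M₁ + t + 1 = (a + 1) * N := by
    refine ⟨(a + 1) * N - M₁ - 1, ?_⟩
    have : N ≤ (a + 1) * N := Nat.le_mul_of_pos_left N (Nat.succ_pos a)
    omega
  let B := MvPolynomial (Fin t × (Fin (a + 1) × Fin N)) k
  let KK := AlgebraicClosure (FractionRing B)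
  let tt : Fin t → Fin (a + 1) × Fin N → KK := fun j x => algebraMap (FractionRing B) KK
    (algebraMap B (FractionRing B) (X (j, x)))
  have htt : AlgebraicIndependent k (fun p : Fin t × (Fin (a + 1) × Fin N) => tt p.1 p.2) := by
    have h1 : AlgebraicIndependent k (X : Fin t × (Fin (a + 1) × Fin N) → B) :=
      MvPolynomial.algebraicIndependent_X _ _
    have h2 := h1.map' (f := IsScalarTower.toAlgHom k B (FractionRing B))
      (IsFractionRing.injective B (FractionRing B))
    exact h2.map' (f := IsScalarTower.toAlgHom k (FractionRing B) KK)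
      (algebraMap (FractionRing B) KK).injective
  obtain ⟨x, hx0, hx⟩ := Pool.Agent.H952R2.Sextic.exists_common_zero (K := KK)
    (ι := Fin (a + 1) × Fin N) (κ := (Σ i : Fin r, AA (a + 1) (e i + 1)) ⊕ Fin t)
    (by rw [Fintype.card_sum, Fintype.card_prod, Fintype.card_fin, Fintype.card_fin,
          Fintype.card_fin, ← hM₁]; omega)
    (Sum.elim (fun p => coeff p.2.1 (pol (F p.1) (fun i l => (X (i, l) :
      MvPolynomial (Fin (a + 1) × Fin N) KK)))) (fun j => ∑ x, C (tt j x) * X x))
    (by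
      rintro (γ | j)
      · have h1 := coeff_pol_map (k := k) ((aeval (0 : Fin (a + 1) × Fin N → KK) :
          MvPolynomial (Fin (a + 1) × Fin N) KK →ₐ[KK] KK).restrictScalars k) (F γ.1)
          (fun i l => (X (i, l) : MvPolynomial (Fin (a + 1) × Fin N) KK)) γ.2.1
        have h2 : (fun i l => ((aeval (0 : Fin (a + 1) × Fin N → KK) :
          MvPolynomial (Fin (a + 1) × Fin N) KK →ₐ[KK] KK).restrictScalars k)
            ((X (i, l) : MvPolynomial (Fin (a + 1) × Fin N) KK))) =
            fun (_ : Fin (a + 1)) (_ : Fin N) => (0 : KK) := by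
          funext i l
          show aeval (0 : Fin (a + 1) × Fin N → KK) (X (i, l)) = 0
          rw [aeval_X]
          rfl
        rw [h2, pol_zero (hF γ.1), coeff_zero] at h1
        exact h1.symm
      · show eval 0 (∑ x, C (tt j x) * X x) = 0
        rw [map_sum]
        refine Finset.sum_eq_zero fun x _ => ?_
        rw [map_mul, eval_X, Pi.zero_apply, mul_zero])
  obtain ⟨x₀, hx₀⟩ := Function.ne_iff.1 hx0
  have hx₀ : x x₀ ≠ 0 := hx₀
  obtain ⟨s, hs'⟩ : ∃ s, s = (x x₀)⁻¹ := ⟨_, rfl⟩
  have hG0 : ∀ (i : Fin r) (γ : AA (a + 1) (e i + 1)),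
      coeff γ.1 (pol (F i) (fun i l => x (i, l))) = 0 := by
    intro i γ
    have h1 := coeff_pol_map (k := k) ((aeval x :
      MvPolynomial (Fin (a + 1) × Fin N) KK →ₐ[KK] KK).restrictScalars k) (F i)
      (fun i l => (X (i, l) : MvPolynomial (Fin (a + 1) × Fin N) KK)) γ.1
    have h2 : (fun i l => ((aeval x :
      MvPolynomial (Fin (a + 1) × Fin N) KK →ₐ[KK] KK).restrictScalars k)
        ((X (i, l) : MvPolynomial (Fin (a + 1) × Fin N) KK))) = fun i l => x (i, l) := by
      funext i l
      show aeval x (X (i, l)) = _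
      rw [aeval_X]
    rw [h2] at h1
    exact h1.trans (hx (Sum.inl ⟨i, γ⟩))
  have hG : ∀ (i : Fin r) (γ : AA (a + 1) (e i + 1)),
      coeff γ.1 (pol (F i) (fun i l => s * x (i, l))) = 0 := by
    intro i γ
    rw [pol_smul (hF i), coeff_C_mul, hG0, mul_zero]
  refine ⟨KK, inferInstance, inferInstance, fun i l => s * x (i, l), hG, fun lam hlam => ?_⟩
  by_contra hne
  have h1 := lower (k := k) tt htt (fun y => s * x y) (by
    intro h0
    have h1 : s * x x₀ = 0 := congrFun h0 x₀
    rw [hs', inv_mul_cancel₀ hx₀] at h1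
    exact one_ne_zero h1) (fun j => by
    have h2 : eval x (∑ y, C (tt j y) * X y) = 0 := hx (Sum.inr j)
    rw [map_sum] at h2
    have h3 : ∑ y, tt j y * (s * x y) = s * ∑ y, eval x (C (tt j y) * X y) := by
      rw [Finset.mul_sum]
      refine Finset.sum_congr rfl fun y _ => ?_
      rw [map_mul, eval_C, eval_X]
      ring
    rw [h3, h2, mul_zero])
  have h2 := upper2 (k := k) (F := F) (D := D) hs hF hD hne (fun i l => s * x (i, l)) x₀
    (by rw [Prod.mk.eta, hs', inv_mul_cancel₀ hx₀]) hG hlam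
  have h3 := h1.trans h2
  rw [← hM₂] at h3
  have h4 : (a + 1) * N = a * N + N := by ring
  omega

/-- a point over the base field -/
theorem point2 {F : Fin r → MvPolynomial (Fin N) k}
    {D : Fin r → Fin m → MvPolynomial (Fin N) k} (hs : Nsg F D)
    (hF : ∀ i, (F i).IsHomogeneous (e i + 1)) (hD : ∀ i l, (D i l).IsHomogeneous (e i))
    (hN : Fintype.card (Σ i : Fin r, AA (a + 1) (e i + 1)) + Fintype.card (GG (a + 1) r e) ≤ N)
    (hM : 0 < Fintype.card (GG (a + 1) r e)) :
    ∃ (P : Fin (a + 1) → Fin N → k) (W : GG (a + 1) r e → Fin m → k),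
      (∀ (i : Fin r) (γ : AA (a + 1) (e i + 1)), coeff γ.1 (pol (F i) P) = 0) ∧
      ∀ p q : GG (a + 1) r e, ∑ l, coeff p.2.1 (pol (D p.1 l) P) * W q l =
        if p = q then 1 else 0 := by
  classical
  obtain ⟨KK, _, _, P, hP, hlam⟩ := generic2 hs hF hD hN hM
  let θ : (Fin m → KK) →ₗ[KK] (GG (a + 1) r e → KK) :=
    { toFun := fun η p => ∑ l, coeff p.2.1 (pol (D p.1 l) P) * η l
      map_add' := fun η η' => by
        funext p
        show ∑ l, coeff p.2.1 (pol (D p.1 l) P) * (η l + η' l) =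
          ∑ l, coeff p.2.1 (pol (D p.1 l) P) * η l + ∑ l, coeff p.2.1 (pol (D p.1 l) P) * η' l
        rw [← Finset.sum_add_distrib]
        exact Finset.sum_congr rfl fun l _ => by ring
      map_smul' := fun t η => by
        funext p
        show ∑ l, coeff p.2.1 (pol (D p.1 l) P) * (t * η l) =
          t * ∑ l, coeff p.2.1 (pol (D p.1 l) P) * η l
        rw [Finset.mul_sum]
        exact Finset.sum_congr rfl fun l _ => by ring }
  have hθ : Function.Surjective θ := by
    rw [← LinearMap.range_eq_top]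
    by_contra hne
    obtain ⟨f, hf0, hf⟩ := Submodule.exists_le_ker_of_lt_top _ (lt_top_iff_ne_top.2 hne)
    apply hf0
    have h1 : (fun p => f (Pi.single p 1)) = (0 : GG (a + 1) r e → KK) := by
      apply hlam
      intro l
      have h2 : f (θ (Pi.single l 1)) = 0 := hf ⟨_, rfl⟩
      have h3 : θ (Pi.single l 1) = fun p => coeff p.2.1 (pol (D p.1 l) P) := by
        funext p
        show ∑ m', coeff p.2.1 (pol (D p.1 m') P) * (Pi.single l 1 : Fin m → KK) m' = _
        rw [Finset.sum_eq_single l]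
        · rw [Pi.single_eq_same, mul_one]
        · intro m' _ hm
          rw [Pi.single_eq_of_ne hm, mul_zero]
        · intro h
          exact absurd (Finset.mem_univ _) h
      rw [h3, LinearMap.pi_apply_eq_sum_univ f] at h2
      rw [← h2]
      refine Finset.sum_congr rfl fun p _ => ?_
      rw [smul_eq_mul, mul_comm]
      congr 2
      funext q
      by_cases h : q = p
      · subst h
        rw [Pi.single_eq_same, if_pos rfl]
      · rw [Pi.single_eq_of_ne h, if_neg (Ne.symm h)]
    refine LinearMap.pi_ext' fun p => ?_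
    ext
    rw [LinearMap.comp_apply, LinearMap.coe_single, LinearMap.zero_comp, LinearMap.zero_apply]
    exact congrFun h1 p
  choose W hW using fun q : GG (a + 1) r e => hθ (Pi.single q 1)
  let ι := (Fin (a + 1) × Fin N) ⊕ (GG (a + 1) r e × Fin m)
  let f : (Σ i : Fin r, AA (a + 1) (e i + 1)) ⊕ (GG (a + 1) r e × GG (a + 1) r e) →
      MvPolynomial ι k :=
    Sum.elim (fun p => coeff p.2.1 (pol (F p.1) (fun i l => X (Sum.inl (i, l)))))
      (fun p => ∑ l, coeff p.1.2.1 (pol (D p.1.1 l) (fun i l => X (Sum.inl (i, l)))) *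
        X (Sum.inr (p.2, l)) - if p.1 = p.2 then 1 else 0)
  have hval : ∀ {R : Type u} [CommRing R] [Algebra k R] (y : ι → R) (G : MvPolynomial (Fin N) k)
      (α : Fin (a + 1) →₀ ℕ), aeval y (coeff α (pol G (fun i l => (X (Sum.inl (i, l)) :
        MvPolynomial ι k)))) = coeff α (pol G (fun i l => y (Sum.inl (i, l)))) := by
    intro R _ _ y G α
    have h1 := coeff_pol_map (k := k) (aeval y : MvPolynomial ι k →ₐ[k] R) G
      (fun i l => (X (Sum.inl (i, l)) : MvPolynomial ι k)) α
    rw [← h1]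
    congr 2
    funext i l
    rw [aeval_X]
  obtain ⟨y, hy, -⟩ := Pool.Agent.H952R2.Sextic.transfer (kb := k) f 1
    ⟨(Sum.elim (fun p => P p.1 p.2) (fun p => W p.1 p.2) : ι → KK), by
      rintro (γ | ⟨p, q⟩)
      · show aeval _ (coeff γ.2.1 (pol (F γ.1) (fun i l => X (Sum.inl (i, l))))) = 0
        rw [hval]
        exact hP γ.1 γ.2
      · show aeval _ (∑ l, coeff p.2.1 (pol (D p.1 l) (fun i l => X (Sum.inl (i, l)))) *
          X (Sum.inr (q, l)) - if p = q then 1 else 0) = 0
        rw [map_sub, map_sum, sub_eq_zero]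
        have h1 := congrFun (hW q) p
        have h2 : ∑ l, coeff p.2.1 (pol (D p.1 l) P) * W q l =
          (Pi.single q 1 : GG (a + 1) r e → KK) p := h1
        have h3 : aeval (Sum.elim (fun p => P p.1 p.2) (fun p => W p.1 p.2) : ι → KK)
            (if p = q then (1 : MvPolynomial ι k) else 0) = if p = q then 1 else 0 := by
          split_ifs
          · rw [map_one]
          · rw [map_zero]
        rw [h3]
        have h4 : (Pi.single q 1 : GG (a + 1) r e → KK) p = if p = q then 1 else 0 := by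
          by_cases h : p = q
          · subst h
            rw [Pi.single_eq_same, if_pos rfl]
          · rw [Pi.single_eq_of_ne h, if_neg h]
        rw [← h4, ← h2]
        refine Finset.sum_congr rfl fun l _ => ?_
        rw [map_mul, hval, aeval_X]
        rfl, by rw [map_one]; exact one_ne_zero⟩
  refine ⟨fun i l => y (Sum.inl (i, l)), fun q l => y (Sum.inr (q, l)), fun i γ => ?_,
    fun p q => ?_⟩
  · rw [← hval]
    exact hy (Sum.inl ⟨i, γ⟩)
  · have h1 : aeval y (∑ l, coeff p.2.1 (pol (D p.1 l) (fun i l => X (Sum.inl (i, l)))) *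
          X (Sum.inr (q, l)) - (if p = q then 1 else 0) : MvPolynomial ι k) = 0 :=
      hy (Sum.inr (p, q))
    rw [map_sub, map_sum, sub_eq_zero] at h1
    have h3 : aeval y (if p = q then (1 : MvPolynomial ι k) else 0) = if p = q then 1 else 0 := by
      split_ifs
      · rw [map_one]
      · rw [map_zero]
    rw [h3] at h1
    rw [← h1]
    refine Finset.sum_congr rfl fun l _ => ?_
    rw [map_mul, hval, aeval_X]

end

/-- **EXC** -/
theorem sEXC : SEXC.{u} := by
  classical
  intro k _ _ _ r N a d hd ha hr hN F hF hs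
  obtain ⟨a, rfl⟩ : ∃ a', a = a' + 1 := ⟨a - 1, by omega⟩
  obtain ⟨e, he⟩ : ∃ e : Fin r → ℕ, ∀ i, d i = e i + 1 :=
    ⟨fun i => d i - 1, fun i => by
      have := hd i
      show d i = d i - 1 + 1
      omega⟩
  have hF' : ∀ i, (F i).IsHomogeneous (e i + 1) := fun i => by
    rw [← he i]
    exact hF i
  have hFd : ∀ i l, (pderiv l (F i)).IsHomogeneous (e i) := by
    intro i l
    have := (hF' i).pderiv (i := l)
    rwa [Nat.add_sub_cancel] at this
  have hcard1 : Fintype.card (Σ i : Fin r, AA (a + 1) (e i + 1)) =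
      ∑ i, Nat.choose (a + 1 + d i - 1) (d i) := by
    rw [Fintype.card_sigma]
    refine Finset.sum_congr rfl fun i _ => ?_
    rw [card_AA, he i]
  have hcard2 : Fintype.card (GG (a + 1) r e) = ∑ i, Nat.choose (a + 1 + d i - 2) (d i - 1) := by
    rw [Fintype.card_sigma]
    refine Finset.sum_congr rfl fun i _ => ?_
    have e1 : a + 1 + (e i + 1) - 2 = a + 1 + e i - 1 := by omega
    rw [card_AA, he i, e1, Nat.add_sub_cancel]
  obtain ⟨P, W, hp, hW⟩ := point2 (a := a) (F := F) (D := fun i l => pderiv l (F i))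
    (fun x hx μ hμ => hs x hx μ hμ) hF' hFd (by
      rw [hcard1, hcard2, ← Finset.sum_add_distrib]
      exact hN) (by
      rw [hcard2]
      have : 0 < Nat.choose (a + 1 + d ⟨0, hr⟩ - 2) (d ⟨0, hr⟩ - 1) := by
        refine Nat.choose_pos ?_
        have := hd ⟨0, hr⟩
        omega
      exact lt_of_lt_of_le this (Finset.single_le_sum
        (f := fun i => Nat.choose (a + 1 + d i - 2) (d i - 1)) (fun _ _ => Nat.zero_le _)
        (Finset.mem_univ _)))
  have hPF : ∀ i, pol (F i) (fun i l => P i l) = 0 := by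
    intro i
    ext γ
    rw [coeff_zero]
    by_cases h : γ.degree = e i + 1
    · exact hp i ⟨γ, mem_AA h⟩
    · exact (pol_hom (hF' i) P).coeff_eq_zero h
  refine ⟨P, fun G hG => ⟨fun i => ?_, ?_⟩⟩
  · unfold Van
    rw [hG, sub_pol]
    exact hPF i
  · intro M _ _ Ψ hΨ
    refine ⟨fun l => ∑ q : GG (a + 1) r e, coeff q.2.1 (Ψ q.1) * algebraMap k M (W q l),
      fun u => ?_⟩
    unfold lin
    have h1 : ∀ l, aeval (Sum.elim (X : Fin (a + 1) → MvPolynomial (Fin (a + 1)) M) (fun _ => 0))
        (pderiv (Sum.inr l) (G u)) = pol (pderiv l (F u)) (fun i l => algebraMap k M (P i l)) := by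
      intro l
      rw [hG, pderiv_aeval, sub_pol]
    have h2 : ∀ l α, coeff α (pol (pderiv l (F u)) (fun i l => algebraMap k M (P i l))) =
        algebraMap k M (coeff α (pol (pderiv l (F u)) P)) := fun l α =>
      coeff_pol_map (Algebra.ofId k M) (pderiv l (F u)) P α
    ext α
    rw [coeff_sum]
    simp only [h1, coeff_C_mul, h2]
    by_cases h : α.degree = e u
    · have h3 : ∀ q : GG (a + 1) r e, ∑ l, coeff q.2.1 (Ψ q.1) * algebraMap k M (W q l) *
          algebraMap k M (coeff α (pol (pderiv l (F u)) P)) =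
          coeff q.2.1 (Ψ q.1) *
            if (⟨u, ⟨α, mem_AA h⟩⟩ : GG (a + 1) r e) = q then 1 else 0 := by
        intro q
        have h4 := congrArg (algebraMap k M) (hW ⟨u, ⟨α, mem_AA h⟩⟩ q)
        have h5 : algebraMap k M (if (⟨u, ⟨α, mem_AA h⟩⟩ : GG (a + 1) r e) = q then 1 else 0) =
            if (⟨u, ⟨α, mem_AA h⟩⟩ : GG (a + 1) r e) = q then 1 else 0 := by
          split_ifs
          · rw [map_one]
          · rw [map_zero]
        rw [h5, map_sum] at h4
        rw [← h4, Finset.mul_sum]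
        refine Finset.sum_congr rfl fun l _ => ?_
        rw [map_mul]
        ring
      have h4 : ∀ l, (∑ q : GG (a + 1) r e, coeff q.2.1 (Ψ q.1) * algebraMap k M (W q l)) *
          algebraMap k M (coeff α (pol (pderiv l (F u)) P)) =
          ∑ q : GG (a + 1) r e, coeff q.2.1 (Ψ q.1) * algebraMap k M (W q l) *
            algebraMap k M (coeff α (pol (pderiv l (F u)) P)) := fun l => Finset.sum_mul _ _ _
      rw [Finset.sum_congr rfl fun l _ => h4 l, Finset.sum_comm,
        Finset.sum_congr rfl fun q _ => h3 q,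
        Finset.sum_eq_single (⟨u, ⟨α, mem_AA h⟩⟩ : GG (a + 1) r e)]
      · rw [if_pos rfl, mul_one]
      · intro q _ hne
        rw [if_neg (Ne.symm hne), mul_zero]
      · intro h0
        exact absurd (Finset.mem_univ _) h0
    · have h3 : coeff α (Ψ u) = 0 := (hΨ u).coeff_eq_zero (by
        rw [he u, Nat.add_sub_cancel]
        exact h)
      rw [h3]
      refine Finset.sum_eq_zero fun l _ => ?_
      rw [(pol_hom (hFd u l) P).coeff_eq_zero h, map_zero, mul_zero]

end Pool.Agent.Helper48.HY
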