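import Pool.Agent.Helper48.HY.Pol
import Pool.Agent.Helper64.QH.Grd

/-! # Dimension counts with derivations -/

set_option autoImplicit false
set_option linter.unusedSectionVars false

namespace Pool.Agent.Helper48.HY

open MvPolynomial Pool.Agent.Helper4.HY Pool.Agent.Helper4.QH Pool.Agent.R867.J Pool.Agent.R867.Mov

universe u v w

section lin

theorem rank_le {L V W₁ W₂ : Type*} [Field L] [AddCommGroup V] [Module L V] [AddCommGroup W₁]
    [Module L W₁] [AddCommGroup W₂] [Module L W₂] [FiniteDimensional L W₂]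
    (f : V →ₗ[L] W₁) (g : V →ₗ[L] W₂) (h : LinearMap.ker g ≤ LinearMap.ker f) :
    Module.finrank L (LinearMap.range f) ≤ Module.finrank L W₂ := by
  obtain ⟨θ, hθ⟩ : ∃ θ : W₂ →ₗ[L] W₁, f = θ.comp g := by
    obtain ⟨s, hs⟩ := (g.rangeRestrict).exists_rightInverse_of_surjective
      (LinearMap.range_rangeRestrict g)
    obtain ⟨θ, hθ⟩ := (f.comp s).exists_extend
    refine ⟨θ, ?_⟩
    ext1 D
    have h1 : θ (g D) = (f.comp s) (g.rangeRestrict D) := by
      rw [← hθ]
      rfl
    rw [LinearMap.comp_apply, h1, LinearMap.comp_apply]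
    have h2 : g (s (g.rangeRestrict D)) = g D := by
      have h3 := congrArg Subtype.val (LinearMap.congr_fun hs (g.rangeRestrict D))
      exact h3
    have h4 : D - s (g.rangeRestrict D) ∈ LinearMap.ker g := by
      rw [LinearMap.mem_ker, map_sub, h2, sub_self]
    have h5 := h h4
    rw [LinearMap.mem_ker, map_sub, sub_eq_zero] at h5
    exact h5
  have hle : LinearMap.range f ≤ LinearMap.range θ := by
    rw [hθ]
    exact LinearMap.range_comp_le_range _ _
  exact (Submodule.finrank_mono hle).trans (LinearMap.finrank_range_le θ)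

end lin

section
variable {k : Type u} [Field k] [CharZero k] {KK : Type v} [Field KK] [Algebra k KK]
  {V : Type} [Fintype V]

/-- the derivatives of the coordinates of the generic point of the cone -/
noncomputable def evW (P : V → KK) : Derivation k (MM KK) (MM KK) →ₗ[MM KK] (V → MM KK) where
  toFun D x := D (tau KK * algebraMap KK (MM KK) (P x))
  map_add' _ _ := rfl
  map_smul' _ _ := rfl

theorem lower [DecidableEq V] {r : ℕ} (tt : Fin r → V → KK)
    (htt : AlgebraicIndependent k (fun p : Fin r × V => tt p.1 p.2)) (P : V → KK) (hP : P ≠ 0)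
    (h : ∀ j, ∑ x, tt j x * P x = 0) :
    r + 1 ≤ Module.finrank (MM KK) (LinearMap.range (evW (k := k) P)) := by
  obtain ⟨x₀, hx₀⟩ := Function.ne_iff.1 hP
  have hx₀ : P x₀ ≠ 0 := hx₀
  obtain ⟨ι, hι⟩ : ∃ ι : KK →+* MM KK, ι = algebraMap KK (MM KK) := ⟨_, rfl⟩
  have hc0 : CharZero KK := charZero_of_injective_algebraMap (algebraMap k KK).injective
  have hPx₀ : tau KK * ι (P x₀) ≠ 0 := mul_ne_zero (tau_ne KK) ((map_ne_zero ι).2 hx₀)
  let T : (V → MM KK) →ₗ[MM KK] (Fin r → MM KK) :=
    { toFun := fun v j => ∑ x, ι (tt j x) * v x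
      map_add' := fun v v' => by
        funext j
        show ∑ x, ι (tt j x) * (v x + v' x) = ∑ x, ι (tt j x) * v x + ∑ x, ι (tt j x) * v' x
        rw [← Finset.sum_add_distrib]
        exact Finset.sum_congr rfl fun x _ => by ring
      map_smul' := fun c v => by
        funext j
        show ∑ x, ι (tt j x) * (c * v x) = c * ∑ x, ι (tt j x) * v x
        rw [Finset.mul_sum]
        exact Finset.sum_congr rfl fun x _ => by ring }
  let W := LinearMap.range (evW (k := k) P)
  let T' : W →ₗ[MM KK] (Fin r → MM KK) := T.domRestrict W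
  have hrel : ∀ j, ∑ x, ι (tt j x) * (tau KK * ι (P x)) = 0 := by
    intro j
    have e : ∑ x, ι (tt j x) * (tau KK * ι (P x)) = tau KK * ι (∑ x, tt j x * P x) := by
      rw [map_sum, Finset.mul_sum]
      exact Finset.sum_congr rfl fun x _ => by rw [map_mul]; ring
    rw [e, h j, map_zero, mul_zero]
  have hsurj : LinearMap.range T' = ⊤ := by
    rw [LinearMap.range_eq_top]
    intro t
    have hai : AlgebraicIndependent k (fun p : Fin r × V => ι (tt p.1 p.2)) := by
      rw [hι]
      exact htt.map' (f := IsScalarTower.toAlgHom k KK (MM KK)) (algebraMap KK (MM KK)).injective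
    obtain ⟨D, hD⟩ := Pool.Agent.H135R2.VS.exists_der hai
      (fun p => if p.2 = x₀ then -(t p.1) / (tau KK * ι (P x₀)) else 0)
    refine ⟨⟨evW P D, D, rfl⟩, ?_⟩
    funext j
    show ∑ x, ι (tt j x) * D (tau KK * algebraMap KK (MM KK) (P x)) = t j
    rw [← hι]
    have h1 := congrArg D (hrel j)
    rw [map_zero, map_sum] at h1
    have h2 : ∀ x, D (ι (tt j x) * (tau KK * ι (P x))) =
        ι (tt j x) * D (tau KK * ι (P x)) + (tau KK * ι (P x)) * D (ι (tt j x)) := by
      intro x
      rw [Derivation.leibniz, smul_eq_mul, smul_eq_mul]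
    rw [Finset.sum_congr rfl fun x _ => h2 x, Finset.sum_add_distrib] at h1
    have h3 : ∑ x, (tau KK * ι (P x)) * D (ι (tt j x)) = - t j := by
      rw [Finset.sum_eq_single x₀]
      · rw [hD (j, x₀), if_pos rfl, mul_div_cancel₀ _ hPx₀]
      · intro x _ hx
        rw [hD (j, x), if_neg hx, mul_zero]
      · intro h0
        exact absurd (Finset.mem_univ _) h0
    rw [h3] at h1
    linear_combination h1
  have hker : 1 ≤ Module.finrank (MM KK) (LinearMap.ker T') := by
    have hai : AlgebraicIndependent KK (fun _ : Unit => tau KK) :=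
      (algebraicIndependent_unique_type_iff).2 (tau_tr KK)
    obtain ⟨D, hD⟩ := Pool.Agent.H135R2.VS.exists_der hai (fun _ => tau KK)
    have hDP : evW P (D.restrictScalars k) = fun x => tau KK * ι (P x) := by
      funext x
      show D (tau KK * algebraMap KK (MM KK) (P x)) = _
      rw [Derivation.leibniz, D.map_algebraMap, smul_zero, zero_add, smul_eq_mul, hD (), hι]
      ring
    rw [Nat.one_le_iff_ne_zero]
    intro h0
    rw [Submodule.finrank_eq_zero, Submodule.eq_bot_iff] at h0
    have h1 := h0 ⟨evW P (D.restrictScalars k), D.restrictScalars k, rfl⟩ (by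
      rw [LinearMap.mem_ker]
      funext j
      show ∑ x, ι (tt j x) * (evW P (D.restrictScalars k)) x = 0
      rw [hDP]
      exact hrel j)
    have h2 := congrFun (congrArg Subtype.val h1) x₀
    have h3 : (evW P (D.restrictScalars k)) x₀ = 0 := h2
    rw [hDP] at h3
    exact hPx₀ h3
  have h1 := LinearMap.finrank_range_add_finrank_ker T'
  rw [hsurj, finrank_top, Module.finrank_fintype_fun_eq_card, Fintype.card_fin] at h1
  have h2 : Module.finrank (MM KK) W = Module.finrank (MM KK) (LinearMap.range (evW (k := k) P)) :=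
    rfl
  omega

end

section upper
variable {k : Type u} [Field k] [CharZero k] [IsAlgClosed k] {KK : Type v} [Field KK] [Algebra k KK]
  {a N e : ℕ}

/-- the elements killed by the derivations which kill `lam` -/
noncomputable def k1 {A : Type} (lam : A → KK) : IntermediateField k KK where
  carrier := {z | ∀ D : Derivation k (MM KK) (MM KK),
    (∀ α, D (algebraMap KK (MM KK) (lam α)) = 0) → D (algebraMap KK (MM KK) z) = 0}
  mul_mem' := by
    intro x y hx hy D hD
    rw [map_mul, Derivation.leibniz, hx D hD, hy D hD, smul_zero, smul_zero, add_zero]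
  one_mem' := by
    intro D _
    rw [map_one, Derivation.map_one_eq_zero]
  add_mem' := by
    intro x y hx hy D hD
    rw [map_add, map_add, hx D hD, hy D hD, add_zero]
  zero_mem' := by
    intro D _
    rw [map_zero, map_zero]
  algebraMap_mem' := by
    intro c D _
    rw [← IsScalarTower.algebraMap_apply k KK (MM KK), Derivation.map_algebraMap]
  inv_mem' := by
    intro x hx D hD
    rw [map_inv₀, Derivation.leibniz_inv, hx D hD, smul_zero]

theorem nullst {I : Type} {F : I → MvPolynomial (Fin N) k}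
    (hF : ∀ x : Fin N → k, (∀ i, aeval x (F i) = 0) → x = 0) (j : Fin N) :
    X j ∈ (Ideal.span (Set.range F)).radical := by
  rw [← vanishingIdeal_zeroLocus_eq_radical (K := k), mem_vanishingIdeal_iff]
  intro x hx
  rw [mem_zeroLocus_iff] at hx
  have h1 : x = 0 := hF x fun i => hx _ (Ideal.subset_span ⟨i, rfl⟩)
  rw [h1, aeval_X]
  rfl

/-- the numbering of the coordinates -/
def ev (a N : ℕ) : Fin ((a + 1) * N) ≃ Fin (a + 1) × Fin N := finProdFinEquiv.symm

/-- the forms -/
noncomputable def gg {K₁ : Type v} [Field K₁] [Algebra k K₁] (c : Fin (a + 1) → k)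
    (j : Fin (a * N)) : MvPolynomial (Fin ((a + 1) * N)) K₁ :=
  X ((ev a N).symm ((finProdFinEquiv.symm j).1.succ, (finProdFinEquiv.symm j).2)) -
    C (algebraMap k K₁ (c (finProdFinEquiv.symm j).1.succ / c 0)) *
      X ((ev a N).symm (0, (finProdFinEquiv.symm j).2))

theorem gg_hom {K₁ : Type v} [Field K₁] [Algebra k K₁] (c : Fin (a + 1) → k) (j : Fin (a * N)) :
    (gg (K₁ := K₁) c j).IsHomogeneous 1 := by
  unfold gg
  refine IsHomogeneous.sub (isHomogeneous_X _ _) ?_
  have := (isHomogeneous_C (Fin ((a + 1) * N))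
    (algebraMap k K₁ (c (finProdFinEquiv.symm j).1.succ / c 0))).mul
    (isHomogeneous_X K₁ ((ev a N).symm (0, (finProdFinEquiv.symm j).2)))
  rwa [zero_add] at this

/-- the coordinates are nilpotent modulo the equations -/
theorem rad {I : Type} {K₁ : Type v} [Field K₁] [Algebra k K₁] {F : I → MvPolynomial (Fin N) k}
    (hF : ∀ x : Fin N → k, (∀ i, aeval x (F i) = 0) → x = 0) (hFe : ∀ l, (F l).IsHomogeneous e)
    {c : Fin (a + 1) → k} (hc : c 0 ≠ 0) {lam : AA (a + 1) e → K₁}
    (hlam : ∑ α, lam α * algebraMap k K₁ (mu c e α.1) ≠ 0)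
    (J : Ideal (MvPolynomial (Fin ((a + 1) * N)) K₁)) (hgJ : ∀ j, gg c j ∈ J)
    (hJ : ∀ l, ∑ α, C (lam α) *
      coeff α.1 (pol (F l) (fun i l => (X ((ev a N).symm (i, l)) :
        MvPolynomial (Fin ((a + 1) * N)) K₁))) ∈ J) (x : Fin ((a + 1) * N)) : X x ∈ J.radical := by
  obtain ⟨mk, hmk⟩ : ∃ mk : MvPolynomial (Fin ((a + 1) * N)) K₁ →ₐ[K₁]
    (MvPolynomial (Fin ((a + 1) * N)) K₁ ⧸ J), mk = Ideal.Quotient.mkₐ K₁ J := ⟨_, rfl⟩
  have hmk0 : ∀ f, mk f = 0 ↔ f ∈ J := by
    intro f
    rw [hmk]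
    exact Ideal.Quotient.eq_zero_iff_mem
  obtain ⟨pt, hpt⟩ : ∃ pt : Fin (a + 1) → Fin N → (MvPolynomial (Fin ((a + 1) * N)) K₁ ⧸ J),
    pt = fun i l => mk (X ((ev a N).symm (i, l))) := ⟨_, rfl⟩
  obtain ⟨z, hz⟩ : ∃ z : Fin N → (MvPolynomial (Fin ((a + 1) * N)) K₁ ⧸ J),
    z = fun l => algebraMap k _ (c 0)⁻¹ * pt 0 l := ⟨_, rfl⟩
  have h1 : ∀ i l, pt i l = algebraMap k _ (c i) * z l := by
    intro i l
    rw [hz]
    simp only
    rw [← mul_assoc, ← map_mul]
    refine Fin.cases ?_ (fun i => ?_) i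
    · rw [mul_inv_cancel₀ hc, map_one, one_mul]
    · have h2 := (hmk0 _).2 (hgJ (finProdFinEquiv (i, l)))
      unfold gg at h2
      rw [Equiv.symm_apply_apply, map_sub, map_mul, sub_eq_zero] at h2
      have h3 : mk (C (algebraMap k K₁ (c i.succ / c 0))) = algebraMap k _ (c i.succ * (c 0)⁻¹) := by
        have h4 := mk.commutes (algebraMap k K₁ (c i.succ / c 0))
        rw [← IsScalarTower.algebraMap_apply k K₁ (MvPolynomial (Fin ((a + 1) * N)) K₁ ⧸ J)] at h4
        rw [← div_eq_mul_inv]
        exact h4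
      rw [h3] at h2
      rw [hpt]
      exact h2
  have h2 : ∀ l, aeval z (F l) = 0 := by
    intro l
    have h3 := (hmk0 _).2 (hJ l)
    rw [map_sum] at h3
    have h4 : ∀ α : AA (a + 1) e, mk (C (lam α) * coeff α.1 (pol (F l) (fun i l =>
        (X ((ev a N).symm (i, l)) : MvPolynomial (Fin ((a + 1) * N)) K₁)))) =
        algebraMap K₁ _ (lam α * algebraMap k K₁ (mu c e α.1)) * aeval z (F l) := by
      intro α
      rw [map_mul]
      have h5 : mk (C (lam α)) = algebraMap K₁ _ (lam α) := mk.commutes (lam α)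
      have h6 := coeff_pol_map (mk.restrictScalars k) (F l) (fun i l =>
        (X ((ev a N).symm (i, l)) : MvPolynomial (Fin ((a + 1) * N)) K₁)) α.1
      have h7 : (fun i l => (mk.restrictScalars k) (X ((ev a N).symm (i, l)))) =
          fun i l => algebraMap k (MvPolynomial (Fin ((a + 1) * N)) K₁ ⧸ J) (c i) * z l := by
        funext i l
        rw [← h1, hpt]
        rfl
      rw [h7, pol_one (hFe l)] at h6
      have h8 : (mk.restrictScalars k) (coeff α.1 (pol (F l) (fun i l =>
        (X ((ev a N).symm (i, l)) : MvPolynomial (Fin ((a + 1) * N)) K₁)))) =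
        mk (coeff α.1 (pol (F l) (fun i l =>
        (X ((ev a N).symm (i, l)) : MvPolynomial (Fin ((a + 1) * N)) K₁)))) := rfl
      rw [h5, ← h8, ← h6, map_mul, IsScalarTower.algebraMap_apply k K₁
        (MvPolynomial (Fin ((a + 1) * N)) K₁ ⧸ J)]
      ring
    rw [Finset.sum_congr rfl fun α _ => h4 α, ← Finset.sum_mul, ← map_sum] at h3
    have h5 : IsUnit (algebraMap K₁ (MvPolynomial (Fin ((a + 1) * N)) K₁ ⧸ J)
        (∑ α, lam α * algebraMap k K₁ (mu c e α.1))) := (IsUnit.mk0 _ hlam).map _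
    exact (h5.mul_right_eq_zero).1 h3
  have h3 : ∀ l, ∃ n, z l ^ n = 0 := by
    intro l
    obtain ⟨n, hn⟩ := nullst hF l
    refine ⟨n, ?_⟩
    have h4 : Ideal.span (Set.range F) ≤ RingHom.ker
        (aeval z : MvPolynomial (Fin N) k →ₐ[k] (MvPolynomial (Fin ((a + 1) * N)) K₁ ⧸ J)) := by
      rw [Ideal.span_le]
      rintro _ ⟨i, rfl⟩
      exact h2 i
    have h5 := h4 hn
    rw [RingHom.mem_ker, map_pow, aeval_X] at h5
    exact h5
  obtain ⟨n, hn⟩ := h3 ((ev a N) x).2
  refine ⟨n, ?_⟩
  rw [← hmk0, map_pow]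
  have h4 : mk (X x) = pt ((ev a N) x).1 ((ev a N) x).2 := by
    rw [hpt]
    simp only
    rw [Prod.mk.eta, Equiv.symm_apply_apply]
  rw [h4, h1, mul_pow, hn, mul_zero]

theorem coneHom_X {K₁ : Type v} [Field K₁] [Algebra K₁ KK] (P : Fin (a + 1) → Fin N → KK)
    (i : Fin (a + 1)) (l : Fin N) :
    coneHom (k := K₁) (fun j => P (ev a N j).1 (ev a N j).2) (X ((ev a N).symm (i, l))) =
      tau KK * algebraMap KK (MM KK) (P i l) := by
  rw [coneHom, aeval_X, Equiv.apply_symm_apply]

theorem upper_aux {I : Type} {F : I → MvPolynomial (Fin N) k}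
    (hF : ∀ x : Fin N → k, (∀ i, aeval x (F i) = 0) → x = 0) (hFe : ∀ l, (F l).IsHomogeneous e)
    (lam : AA (a + 1) e → KK) {α₀ : AA (a + 1) e} (hl : lam α₀ = 1) (P : Fin (a + 1) → Fin N → KK)
    (h : ∀ l, ∑ α, lam α * coeff α.1 (pol (F l) P) = 0)
    {K₁ : Type v} [Field K₁] [Algebra k K₁] [Algebra K₁ KK] [IsScalarTower k K₁ KK]
    (lam1 : AA (a + 1) e → K₁) (hl1 : ∀ α, algebraMap K₁ KK (lam1 α) = lam α)
    (hk : ∀ D : Derivation k (MM KK) (MM KK), (∀ α, D (algebraMap KK (MM KK) (lam α)) = 0) →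
      ∀ z : K₁, D (algebraMap K₁ (MM KK) z) = 0) :
    Module.finrank (MM KK) (LinearMap.range (evW (k := k)
      (fun x : Fin (a + 1) × Fin N => P x.1 x.2))) ≤ (Fintype.card (AA (a + 1) e) - 1) + a * N := by
  classical
  have hc0 : CharZero KK := charZero_of_injective_algebraMap (algebraMap k KK).injective
  have hcM : CharZero (MM KK) := charZero_of_injective_algebraMap (algebraMap k (MM KK)).injective
  have hinf : Infinite k := inferInstance
  obtain ⟨c, hc, hcl⟩ := exists_c (k := k) (lam := lam) (by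
    intro h0
    rw [h0] at hl
    exact zero_ne_one hl)
  let φ : MvPolynomial (Fin ((a + 1) * N)) K₁ →ₐ[K₁] MM KK :=
    coneHom (k := K₁) (fun j => P (ev a N j).1 (ev a N j).2)
  have hφX : ∀ i l, φ (X ((ev a N).symm (i, l))) = tau KK * algebraMap KK (MM KK) (P i l) :=
    fun i l => coneHom_X P i l
  have hlam1 : ∑ α, lam1 α * algebraMap k K₁ (mu c e α.1) ≠ 0 := by
    intro h0
    apply hcl
    have h1 := congrArg (algebraMap K₁ KK) h0
    rw [map_sum, map_zero] at h1
    rw [← h1]
    refine Finset.sum_congr rfl fun α _ => ?_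
    rw [map_mul, hl1, ← IsScalarTower.algebraMap_apply k K₁ KK]
  have hrad : ∀ x, X x ∈ (RingHom.ker φ ⊔ Ideal.span (Set.range (gg (K₁ := K₁) c))).radical := by
    refine rad hF hFe hc hlam1 _ (fun j => ?_) (fun l => ?_)
    · exact Ideal.mem_sup_right (Ideal.subset_span ⟨j, rfl⟩)
    · refine Ideal.mem_sup_left ?_
      rw [RingHom.mem_ker, map_sum]
      have h1 : ∀ α : AA (a + 1) e, φ (C (lam1 α) * coeff α.1 (pol (F l) (fun i l =>
          (X ((ev a N).symm (i, l)) : MvPolynomial (Fin ((a + 1) * N)) K₁)))) =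
          tau KK ^ e * algebraMap KK (MM KK) (lam α * coeff α.1 (pol (F l) P)) := by
        intro α
        have h2 : φ (C (lam1 α)) = algebraMap KK (MM KK) (lam α) := by
          have h3 : φ (C (lam1 α)) = algebraMap K₁ (MM KK) (lam1 α) := φ.commutes (lam1 α)
          rw [h3, IsScalarTower.algebraMap_apply K₁ KK (MM KK), hl1]
        have h6 := coeff_pol_map (φ.restrictScalars k) (F l) (fun i l =>
          (X ((ev a N).symm (i, l)) : MvPolynomial (Fin ((a + 1) * N)) K₁)) α.1
        have h7 : (fun i l => (φ.restrictScalars k) (X ((ev a N).symm (i, l)))) =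
            fun i l => tau KK * (IsScalarTower.toAlgHom k KK (MM KK)) (P i l) := by
          funext i l
          exact hφX i l
        rw [h7, pol_smul (hFe l), coeff_C_mul, coeff_pol_map] at h6
        have h8 : (φ.restrictScalars k) (coeff α.1 (pol (F l) (fun i l =>
          (X ((ev a N).symm (i, l)) : MvPolynomial (Fin ((a + 1) * N)) K₁)))) =
          φ (coeff α.1 (pol (F l) (fun i l =>
          (X ((ev a N).symm (i, l)) : MvPolynomial (Fin ((a + 1) * N)) K₁)))) := rfl
        have h9 : (IsScalarTower.toAlgHom k KK (MM KK)) (coeff α.1 (pol (F l) P)) =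
          algebraMap KK (MM KK) (coeff α.1 (pol (F l) P)) := rfl
        rw [map_mul, h2, ← h8, ← h6, h9, map_mul]
        ring
      rw [Finset.sum_congr rfl fun α _ => h1 α, ← Finset.mul_sum, ← map_sum, h l, map_zero, mul_zero]
  have hint := Pool.Agent.Helper64.QH.sInt K₁ (MM KK) ((a + 1) * N) (a * N) φ
    (coneHom_homKer _) (gg (K₁ := K₁) c) (fun _ => 1) (fun _ => one_pos) (fun j => gg_hom c j) hrad
  let evB : Derivation k (MM KK) (MM KK) →ₗ[MM KK] (({α : AA (a + 1) e // α ≠ α₀} ⊕ Fin (a * N)) →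
      MM KK) :=
    { toFun := fun D => Sum.elim (fun α => D (algebraMap KK (MM KK) (lam α.1)))
        (fun j => D (φ (gg (K₁ := K₁) c j)))
      map_add' := fun D E => by
        funext x
        rcases x with α | j <;> rfl
      map_smul' := fun t D => by
        funext x
        rcases x with α | j <;> rfl }
  have hker : LinearMap.ker evB ≤ LinearMap.ker (evW (k := k)
      (fun x : Fin (a + 1) × Fin N => P x.1 x.2)) := by
    intro D hD
    rw [LinearMap.mem_ker] at hD ⊢
    have hDl : ∀ α, D (algebraMap KK (MM KK) (lam α)) = 0 := by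
      intro α
      by_cases hα : α = α₀
      · rw [hα, hl, map_one, Derivation.map_one_eq_zero]
      · exact congrFun hD (Sum.inl ⟨α, hα⟩)
    have hDg : ∀ j, D (φ (gg (K₁ := K₁) c j)) = 0 := fun j => congrFun hD (Sum.inr j)
    have hDk : ∀ z : K₁, D (algebraMap K₁ (MM KK) z) = 0 := hk D hDl
    let D1 : Derivation K₁ (MM KK) (MM KK) := Derivation.mk'
      { toFun := D
        map_add' := fun x y => map_add D x y
        map_smul' := fun t x => by
          show D (t • x) = t • D x
          rw [Algebra.smul_def, Algebra.smul_def, Derivation.leibniz, hDk, smul_zero, add_zero,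
            smul_eq_mul] } (fun x y => D.leibniz x y)
    funext x
    have h1 : D1 (φ (X ((ev a N).symm x))) = 0 := by
      refine der_cl D1 (S := Set.range fun j => φ (gg (K₁ := K₁) c j)) ?_ ?_
      · rintro _ ⟨j, rfl⟩
        exact hDg j
      · exact (hint ((ev a N).symm x)).isAlgebraic
    have h2 := hφX x.1 x.2
    rw [Prod.mk.eta] at h2
    rw [h2] at h1
    exact h1
  refine (rank_le _ evB hker).trans (le_of_eq ?_)
  rw [Module.finrank_fintype_fun_eq_card, Fintype.card_sum, Fintype.card_fin]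
  congr 1
  rw [Fintype.card_subtype_compl, Fintype.card_subtype_eq]

theorem upper {I : Type} {F : I → MvPolynomial (Fin N) k}
    (hF : ∀ x : Fin N → k, (∀ i, aeval x (F i) = 0) → x = 0) (hFe : ∀ l, (F l).IsHomogeneous e)
    {lam : AA (a + 1) e → KK} (hl : lam ≠ 0) (P : Fin (a + 1) → Fin N → KK)
    (h : ∀ l, ∑ α, lam α * coeff α.1 (pol (F l) P) = 0) :
    Module.finrank (MM KK) (LinearMap.range (evW (k := k)
      (fun x : Fin (a + 1) × Fin N => P x.1 x.2))) ≤ (Fintype.card (AA (a + 1) e) - 1) + a * N := by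
  obtain ⟨α₀, hα₀⟩ := Function.ne_iff.1 hl
  have hα₀ : lam α₀ ≠ 0 := hα₀
  refine upper_aux hF hFe (fun α => (lam α₀)⁻¹ * lam α) (α₀ := α₀) (inv_mul_cancel₀ hα₀) P ?_
    (K₁ := ↥(k1 (k := k) (fun α => (lam α₀)⁻¹ * lam α)))
    (fun α => ⟨(lam α₀)⁻¹ * lam α, fun D hD => hD α⟩) (fun _ => rfl) ?_
  · intro l
    have e1 : ∑ α, (lam α₀)⁻¹ * lam α * coeff α.1 (pol (F l) P) =
        (lam α₀)⁻¹ * ∑ α, lam α * coeff α.1 (pol (F l) P) := by
      rw [Finset.mul_sum]
      exact Finset.sum_congr rfl fun α _ => by ring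
    rw [e1, h l, mul_zero]
  · intro D hD z
    have h1 : algebraMap ↥(k1 (k := k) (fun α => (lam α₀)⁻¹ * lam α)) (MM KK) z =
        algebraMap KK (MM KK) (z : KK) :=
      IsScalarTower.algebraMap_apply ↥(k1 (k := k) (fun α => (lam α₀)⁻¹ * lam α)) KK (MM KK) z
    exact (congrArg D h1).trans (z.2 D hD)

end upper

end Pool.Agent.Helper48.HY
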