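import Pool.Agent.Helper48.HY.Dim
import Pool.Agent.Helper4.HY.Defs2
import Pool.Graph.R_seed8.H952R2.Sextic.CommonZero

/-! # EXS: a free linear space in a nonsingular hypersurface -/

set_option autoImplicit false
set_option linter.unusedSectionVars false

namespace Pool.Agent.Helper48.HY

open MvPolynomial Pool.Agent.Helper4.HY Pool.Agent.Helper4.QH

universe u v w

section
variable {k : Type u} [Field k] [CharZero k] [IsAlgClosed k] {a N e : ℕ}

theorem pol_zero {R : Type v} [CommRing R] [Algebra k R] {F : MvPolynomial (Fin N) k}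
    (hF : F.IsHomogeneous (e + 1)) :
    pol F (fun (_ : Fin a) (_ : Fin N) => (0 : R)) = 0 := by
  have h := pol_smul hF (0 : R) (fun (_ : Fin a) (_ : Fin N) => (0 : R))
  rw [zero_pow (Nat.succ_ne_zero e), map_zero, zero_mul] at h
  rw [h, zero_mul]

/-- a generic point -/
theorem generic {F : MvPolynomial (Fin N) k} (hF : F.IsHomogeneous (e + 1)) {I : Type}
    {D : I → MvPolynomial (Fin N) k} (hD : ∀ i, (D i).IsHomogeneous e)
    (hs : ∀ x : Fin N → k, (∀ i, aeval x (D i) = 0) → x = 0)
    (hN : Fintype.card (AA (a + 1) (e + 1)) + Fintype.card (AA (a + 1) e) ≤ N)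
    (hM : 0 < Fintype.card (AA (a + 1) e)) :
    ∃ (KK : Type u) (_ : Field KK) (_ : Algebra k KK) (P : Fin (a + 1) → Fin N → KK),
      (∀ γ : AA (a + 1) (e + 1), coeff γ.1 (pol F P) = 0) ∧
      ∀ lam : AA (a + 1) e → KK, (∀ l, ∑ α, lam α * coeff α.1 (pol (D l) P) = 0) →
        lam = 0 := by
  classical
  obtain ⟨M₁, hM₁⟩ : ∃ M₁, M₁ = Fintype.card (AA (a + 1) (e + 1)) := ⟨_, rfl⟩
  obtain ⟨M₂, hM₂⟩ : ∃ M₂, M₂ = Fintype.card (AA (a + 1) e) := ⟨_, rfl⟩
  rw [← hM₁, ← hM₂] at hN
  rw [← hM₂] at hM
  obtain ⟨r, hr⟩ : ∃ r, M₁ + r + 1 = (a + 1) * N := by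
    refine ⟨(a + 1) * N - M₁ - 1, ?_⟩
    have : N ≤ (a + 1) * N := Nat.le_mul_of_pos_left N (Nat.succ_pos a)
    omega
  let B := MvPolynomial (Fin r × (Fin (a + 1) × Fin N)) k
  let KK := AlgebraicClosure (FractionRing B)
  let tt : Fin r → Fin (a + 1) × Fin N → KK := fun j x => algebraMap (FractionRing B) KK
    (algebraMap B (FractionRing B) (X (j, x)))
  have htt : AlgebraicIndependent k (fun p : Fin r × (Fin (a + 1) × Fin N) => tt p.1 p.2) := by
    have h1 : AlgebraicIndependent k (X : Fin r × (Fin (a + 1) × Fin N) → B) :=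
      MvPolynomial.algebraicIndependent_X _ _
    have h2 := h1.map' (f := IsScalarTower.toAlgHom k B (FractionRing B))
      (IsFractionRing.injective B (FractionRing B))
    exact h2.map' (f := IsScalarTower.toAlgHom k (FractionRing B) KK)
      (algebraMap (FractionRing B) KK).injective
  obtain ⟨x, hx0, hx⟩ := Pool.Agent.H952R2.Sextic.exists_common_zero (K := KK)
    (ι := Fin (a + 1) × Fin N) (κ := AA (a + 1) (e + 1) ⊕ Fin r)
    (by rw [Fintype.card_sum, Fintype.card_prod, Fintype.card_fin, Fintype.card_fin,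
          Fintype.card_fin, ← hM₁]; omega)
    (Sum.elim (fun γ => coeff γ.1 (pol F (fun i l => (X (i, l) :
      MvPolynomial (Fin (a + 1) × Fin N) KK)))) (fun j => ∑ x, C (tt j x) * X x))
    (by
      rintro (γ | j)
      · have h1 := coeff_pol_map (k := k) ((aeval (0 : Fin (a + 1) × Fin N → KK) :
          MvPolynomial (Fin (a + 1) × Fin N) KK →ₐ[KK] KK).restrictScalars k) F
          (fun i l => (X (i, l) : MvPolynomial (Fin (a + 1) × Fin N) KK)) γ.1
        have h2 : (fun i l => ((aeval (0 : Fin (a + 1) × Fin N → KK) :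
          MvPolynomial (Fin (a + 1) × Fin N) KK →ₐ[KK] KK).restrictScalars k)
            ((X (i, l) : MvPolynomial (Fin (a + 1) × Fin N) KK))) =
            fun (_ : Fin (a + 1)) (_ : Fin N) => (0 : KK) := by
          funext i l
          show aeval (0 : Fin (a + 1) × Fin N → KK) (X (i, l)) = 0
          rw [aeval_X]
          rfl
        rw [h2, pol_zero hF, coeff_zero] at h1
        exact h1.symm
      · show eval 0 (∑ x, C (tt j x) * X x) = 0
        rw [map_sum]
        refine Finset.sum_eq_zero fun x _ => ?_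
        rw [map_mul, eval_X, Pi.zero_apply, mul_zero])
  refine ⟨KK, inferInstance, inferInstance, fun i l => x (i, l), fun γ => ?_, fun lam hlam => ?_⟩
  · have h1 := coeff_pol_map (k := k) ((aeval x :
      MvPolynomial (Fin (a + 1) × Fin N) KK →ₐ[KK] KK).restrictScalars k) F
      (fun i l => (X (i, l) : MvPolynomial (Fin (a + 1) × Fin N) KK)) γ.1
    have h2 : (fun i l => ((aeval x :
      MvPolynomial (Fin (a + 1) × Fin N) KK →ₐ[KK] KK).restrictScalars k)
        ((X (i, l) : MvPolynomial (Fin (a + 1) × Fin N) KK))) = fun i l => x (i, l) := by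
      funext i l
      show aeval x (X (i, l)) = _
      rw [aeval_X]
    rw [h2] at h1
    exact h1.trans (hx (Sum.inl γ))
  · by_contra hne
    have h1 := lower (k := k) tt htt x hx0 (fun j => by
      have := hx (Sum.inr j)
      have h2 : eval x (∑ y, C (tt j y) * X y) = 0 := this
      rw [map_sum] at h2
      rw [← h2]
      refine Finset.sum_congr rfl fun y _ => ?_
      rw [map_mul, eval_C, eval_X])
    have h2 := upper (k := k) (F := D) hs hD hne (fun i l => x (i, l)) hlam
    have h3 := h1.trans h2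
    rw [← hM₂] at h3
    have h4 : (a + 1) * N = a * N + N := by ring
    omega

/-- a point over the base field -/
theorem point {F : MvPolynomial (Fin N) k} (hF : F.IsHomogeneous (e + 1)) {m : ℕ}
    {D : Fin m → MvPolynomial (Fin N) k} (hD : ∀ i, (D i).IsHomogeneous e)
    (hs : ∀ x : Fin N → k, (∀ i, aeval x (D i) = 0) → x = 0)
    (hN : Fintype.card (AA (a + 1) (e + 1)) + Fintype.card (AA (a + 1) e) ≤ N)
    (hM : 0 < Fintype.card (AA (a + 1) e)) :
    ∃ (P : Fin (a + 1) → Fin N → k) (W : AA (a + 1) e → Fin m → k),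
      (∀ γ : AA (a + 1) (e + 1), coeff γ.1 (pol F P) = 0) ∧
      ∀ α β : AA (a + 1) e, ∑ l, coeff α.1 (pol (D l) P) * W β l =
        if α = β then 1 else 0 := by
  classical
  obtain ⟨KK, _, _, P, hP, hlam⟩ := generic hF hD hs hN hM
  let θ : (Fin m → KK) →ₗ[KK] (AA (a + 1) e → KK) :=
    { toFun := fun η α => ∑ l, coeff α.1 (pol (D l) P) * η l
      map_add' := fun η η' => by
        funext α
        show ∑ l, coeff α.1 (pol (D l) P) * (η l + η' l) =
          ∑ l, coeff α.1 (pol (D l) P) * η l + ∑ l, coeff α.1 (pol (D l) P) * η' l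
        rw [← Finset.sum_add_distrib]
        exact Finset.sum_congr rfl fun l _ => by ring
      map_smul' := fun t η => by
        funext α
        show ∑ l, coeff α.1 (pol (D l) P) * (t * η l) =
          t * ∑ l, coeff α.1 (pol (D l) P) * η l
        rw [Finset.mul_sum]
        exact Finset.sum_congr rfl fun l _ => by ring }
  have hθ : Function.Surjective θ := by
    rw [← LinearMap.range_eq_top]
    by_contra hne
    obtain ⟨f, hf0, hf⟩ := Submodule.exists_le_ker_of_lt_top _ (lt_top_iff_ne_top.2 hne)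
    apply hf0
    have h1 : (fun α => f (Pi.single α 1)) = (0 : AA (a + 1) e → KK) := by
      apply hlam
      intro l
      have h2 : f (θ (Pi.single l 1)) = 0 := hf ⟨_, rfl⟩
      have h3 : θ (Pi.single l 1) = fun α => coeff α.1 (pol (D l) P) := by
        funext α
        show ∑ m', coeff α.1 (pol (D m') P) * (Pi.single l 1 : Fin m → KK) m' = _
        rw [Finset.sum_eq_single l]
        · rw [Pi.single_eq_same, mul_one]
        · intro m' _ hm
          rw [Pi.single_eq_of_ne hm, mul_zero]
        · intro h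
          exact absurd (Finset.mem_univ _) h
      rw [h3, LinearMap.pi_apply_eq_sum_univ f] at h2
      rw [← h2]
      refine Finset.sum_congr rfl fun α _ => ?_
      rw [smul_eq_mul, mul_comm]
      congr 2
      funext β
      by_cases h : β = α
      · subst h
        rw [Pi.single_eq_same, if_pos rfl]
      · rw [Pi.single_eq_of_ne h, if_neg (Ne.symm h)]
    refine LinearMap.pi_ext' fun α => ?_
    ext
    rw [LinearMap.comp_apply, LinearMap.coe_single, LinearMap.zero_comp, LinearMap.zero_apply]
    exact congrFun h1 α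
  choose W hW using fun β : AA (a + 1) e => hθ (Pi.single β 1)
  let ι := (Fin (a + 1) × Fin N) ⊕ (AA (a + 1) e × Fin m)
  let f : AA (a + 1) (e + 1) ⊕ (AA (a + 1) e × AA (a + 1) e) → MvPolynomial ι k :=
    Sum.elim (fun γ => coeff γ.1 (pol F (fun i l => X (Sum.inl (i, l)))))
      (fun p => ∑ l, coeff p.1.1 (pol (D l) (fun i l => X (Sum.inl (i, l)))) *
        X (Sum.inr (p.2, l)) - if p.1 = p.2 then 1 else 0)
  have hval : ∀ {R : Type u} [CommRing R] [Algebra k R] (y : ι → R) (G : MvPolynomial (Fin N) k)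
      (α : Fin (a + 1) →₀ ℕ), aeval y (coeff α (pol G (fun i l => (X (Sum.inl (i, l)) :
        MvPolynomial ι k)))) = coeff α (pol G (fun i l => y (Sum.inl (i, l)))) := by
    intro R _ _ y G α
    have h1 := coeff_pol_map (k := k) (aeval y : MvPolynomial ι k →ₐ[k] R) G
      (fun i l => (X (Sum.inl (i, l)) : MvPolynomial ι k)) α
    rw [← h1]
    congr 2
    funext i l
    rw [aeval_X]
  obtain ⟨y, hy, -⟩ := Pool.Agent.H952R2.Sextic.transfer (kb := k) f 1
    ⟨(Sum.elim (fun p => P p.1 p.2) (fun p => W p.1 p.2) : ι → KK), by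
      rintro (γ | ⟨α, β⟩)
      · show aeval _ (coeff γ.1 (pol F (fun i l => X (Sum.inl (i, l))))) = 0
        rw [hval]
        exact hP γ
      · show aeval _ (∑ l, coeff α.1 (pol (D l) (fun i l => X (Sum.inl (i, l)))) *
          X (Sum.inr (β, l)) - if α = β then 1 else 0) = 0
        rw [map_sub, map_sum, sub_eq_zero]
        have h1 := congrFun (hW β) α
        have h2 : ∑ l, coeff α.1 (pol (D l) P) * W β l =
          (Pi.single β 1 : AA (a + 1) e → KK) α := h1
        have h3 : aeval (Sum.elim (fun p => P p.1 p.2) (fun p => W p.1 p.2) : ι → KK)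
            (if α = β then (1 : MvPolynomial ι k) else 0) = if α = β then 1 else 0 := by
          split_ifs
          · rw [map_one]
          · rw [map_zero]
        rw [h3]
        have h4 : (Pi.single β 1 : AA (a + 1) e → KK) α = if α = β then 1 else 0 := by
          by_cases h : α = β
          · subst h
            rw [Pi.single_eq_same, if_pos rfl]
          · rw [Pi.single_eq_of_ne h, if_neg h]
        rw [← h4, ← h2]
        refine Finset.sum_congr rfl fun l _ => ?_
        rw [map_mul, hval, aeval_X]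
        rfl, by rw [map_one]; exact one_ne_zero⟩
  refine ⟨fun i l => y (Sum.inl (i, l)), fun β l => y (Sum.inr (β, l)), fun γ => ?_,
    fun α β => ?_⟩
  · rw [← hval]
    exact hy (Sum.inl γ)
  · have h1 : aeval y (∑ l, coeff α.1 (pol (D l) (fun i l => X (Sum.inl (i, l)))) *
          X (Sum.inr (β, l)) - (if α = β then 1 else 0) : MvPolynomial ι k) = 0 :=
      hy (Sum.inr (α, β))
    rw [map_sub, map_sum, sub_eq_zero] at h1
    have h3 : aeval y (if α = β then (1 : MvPolynomial ι k) else 0) = if α = β then 1 else 0 := by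
      split_ifs
      · rw [map_one]
      · rw [map_zero]
    rw [h3] at h1
    rw [← h1]
    refine Finset.sum_congr rfl fun l _ => ?_
    rw [map_mul, hval, aeval_X]

/-- the derivative of a polynomial along the linear space -/
theorem pderiv_aeval (P : Fin a → Fin N → k) (l : Fin N) (f : MvPolynomial (Fin N) k) :
    pderiv (Sum.inr l) (aeval (fun j => ∑ i, C (P i j) * X (Sum.inl i) + X (Sum.inr j) :
      Fin N → MvPolynomial (Fin a ⊕ Fin N) k) f) =
      aeval (fun j => ∑ i, C (P i j) * X (Sum.inl i) + X (Sum.inr j)) (pderiv l f) := by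
  classical
  induction f using MvPolynomial.induction_on with
  | C c => simp
  | add p q hp hq => rw [map_add, map_add, hp, hq, map_add, map_add]
  | mul_X p j hp =>
    have h1 : pderiv (Sum.inr l) (∑ i, C (P i j) * X (Sum.inl i) + X (Sum.inr j) :
        MvPolynomial (Fin a ⊕ Fin N) k) = if l = j then 1 else 0 := by
      rw [map_add, map_sum, Finset.sum_eq_zero, zero_add, pderiv_X]
      · by_cases h : l = j
        · subst h
          rw [if_pos rfl, Pi.single_eq_same]
        · rw [if_neg h, Pi.single_eq_of_ne]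
          exact fun h' => h (Sum.inr_injective h').symm
      · intro i _
        rw [Derivation.leibniz, pderiv_X, pderiv_C, smul_zero, add_zero, Pi.single_eq_of_ne, smul_zero]
        exact fun h => Sum.inl_ne_inr h
    have h2 : aeval (fun j => ∑ i, C (P i j) * X (Sum.inl i) + X (Sum.inr j) :
        Fin N → MvPolynomial (Fin a ⊕ Fin N) k) (pderiv l (X j : MvPolynomial (Fin N) k)) =
        if l = j then 1 else 0 := by
      rw [pderiv_X]
      by_cases h : l = j
      · subst h
        rw [if_pos rfl, Pi.single_eq_same, map_one]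
      · rw [if_neg h, Pi.single_eq_of_ne (fun h' => h h'.symm), map_zero]
    have h3 : pderiv l (p * X j) = p * pderiv l (X j) + X j * pderiv l p := by
      rw [Derivation.leibniz, smul_eq_mul, smul_eq_mul]
    rw [h3, map_mul, aeval_X, Derivation.leibniz, hp, h1, map_add (aeval _), map_mul, map_mul, h2,
      aeval_X, smul_eq_mul, smul_eq_mul]

theorem sub_pol {M : Type v} [Field M] [Algebra k M] (P : Fin a → Fin N → k)
    (f : MvPolynomial (Fin N) k) :
    aeval (Sum.elim (X : Fin a → MvPolynomial (Fin a) M) (fun _ => 0))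
      (aeval (fun j => ∑ i, C (P i j) * X (Sum.inl i) + X (Sum.inr j) :
        Fin N → MvPolynomial (Fin a ⊕ Fin N) k) f) = pol f (fun i l => algebraMap k M (P i l)) := by
  unfold pol
  have h := congrFun (congrArg DFunLike.coe (comp_aeval
    (fun j => ∑ i, C (P i j) * X (Sum.inl i) + X (Sum.inr j) :
        Fin N → MvPolynomial (Fin a ⊕ Fin N) k)
    (aeval (Sum.elim (X : Fin a → MvPolynomial (Fin a) M) (fun _ => 0)) :
      MvPolynomial (Fin a ⊕ Fin N) k →ₐ[k] MvPolynomial (Fin a) M))) f
  refine h.trans ?_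
  congr 2
  funext l
  rw [map_add, map_sum, aeval_X, Sum.elim_inr, add_zero]
  refine Finset.sum_congr rfl fun i _ => ?_
  rw [map_mul, aeval_X, Sum.elim_inl, smul_eq_C_mul]
  congr 1
  exact (aeval_C _ _).trans (IsScalarTower.algebraMap_apply k M (MvPolynomial (Fin a) M) _)

/-- the new coordinates -/
theorem pol_lin {N' : ℕ} {R : Type v} [CommRing R] [Algebra k R] (L : Fin N' → Fin N → k)
    (f : MvPolynomial (Fin N) k) (Q : Fin a → Fin N' → R) :
    pol (aeval (fun j => ∑ l, X l * C (L l j) : Fin N → MvPolynomial (Fin N') k) f) Q =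
      pol f (fun i j => ∑ l, Q i l * algebraMap k R (L l j)) := by
  unfold pol
  have h := congrFun (congrArg DFunLike.coe (comp_aeval
    (fun j => ∑ l, X l * C (L l j) : Fin N → MvPolynomial (Fin N') k)
    (aeval (fun l => ∑ i, Q i l • (X i : MvPolynomial (Fin a) R)) :
      MvPolynomial (Fin N') k →ₐ[k] MvPolynomial (Fin a) R))) f
  refine h.trans ?_
  congr 2
  funext j
  rw [map_sum]
  have h1 : ∀ l, aeval (fun l => ∑ i, Q i l • (X i : MvPolynomial (Fin a) R))
      (X l * C (L l j) : MvPolynomial (Fin N') k) =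
      ∑ i, (Q i l * algebraMap k R (L l j)) • (X i : MvPolynomial (Fin a) R) := by
    intro l
    rw [map_mul, aeval_X, Finset.sum_mul]
    refine Finset.sum_congr rfl fun i _ => ?_
    have h2 : aeval (fun l => ∑ i, Q i l • (X i : MvPolynomial (Fin a) R))
        (C (L l j) : MvPolynomial (Fin N') k) = C (algebraMap k R (L l j)) :=
      (aeval_C _ _).trans (IsScalarTower.algebraMap_apply k R (MvPolynomial (Fin a) R) _)
    rw [h2, smul_eq_C_mul, smul_eq_C_mul, map_mul]
    ring
  rw [Finset.sum_congr rfl fun l _ => h1 l, Finset.sum_comm]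
  refine Finset.sum_congr rfl fun i _ => ?_
  rw [Finset.sum_smul]

theorem lin_hom {N' : ℕ} (L : Fin N' → Fin N → k) {f : MvPolynomial (Fin N) k} {d : ℕ}
    (hf : f.IsHomogeneous d) :
    (aeval (fun j => ∑ l, X l * C (L l j) : Fin N → MvPolynomial (Fin N') k) f).IsHomogeneous d := by
  have h : ∀ j, (∑ l, X l * C (L l j) : MvPolynomial (Fin N') k).IsHomogeneous 1 := by
    intro j
    refine IsHomogeneous.sum _ _ _ fun l _ => ?_
    have := (isHomogeneous_X k l).mul (isHomogeneous_C (Fin N') (L l j))
    rwa [add_zero] at this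
  have h2 := hf.aeval _ h
  rwa [one_mul] at h2

end

/-- **EXL** -/
theorem sEXL : SEXL.{u} := by
  classical
  intro k _ _ _ N N' a d hd ha hN F L hF hs
  obtain ⟨a, rfl⟩ : ∃ a', a = a' + 1 := ⟨a - 1, by omega⟩
  obtain ⟨e, rfl⟩ : ∃ e, d = e + 1 := ⟨d - 1, by omega⟩
  have hFd : ∀ l, (pderiv l F).IsHomogeneous e := by
    intro l
    have := hF.pderiv (i := l)
    rwa [Nat.add_sub_cancel] at this
  obtain ⟨p, W, hp, hW⟩ := point (a := a) (lin_hom L hF)
    (D := fun l => aeval (fun j => ∑ l, X l * C (L l j) : Fin N → MvPolynomial (Fin N') k)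
      (pderiv l F)) (fun l => lin_hom L (hFd l)) (by
    intro z hz
    refine hs z fun i => ?_
    rw [← hz i]
    have h := congrFun (congrArg DFunLike.coe (comp_aeval
      (fun j => ∑ l, X l * C (L l j) : Fin N → MvPolynomial (Fin N') k)
      (aeval z : MvPolynomial (Fin N') k →ₐ[k] k))) (pderiv i F)
    refine Eq.trans ?_ h.symm
    congr 2
    funext i'
    rw [map_sum]
    refine Finset.sum_congr rfl fun l _ => ?_
    rw [map_mul, aeval_X]
    exact congrArg (z l * ·) (aeval_C z (L l i')).symm) (by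
    rw [card_AA, card_AA]
    have e1 : a + 1 + (e + 1) - 2 = a + 1 + e - 1 := by omega
    rw [e1, Nat.add_sub_cancel e 1] at hN
    exact hN) (by
    rw [card_AA]
    exact Nat.choose_pos (by omega))
  obtain ⟨P, hPd⟩ : ∃ P : Fin (a + 1) → Fin N → k, P = fun i j => ∑ l, p i l * L l j := ⟨_, rfl⟩
  have hpol : ∀ f : MvPolynomial (Fin N) k,
      pol (aeval (fun j => ∑ l, X l * C (L l j) : Fin N → MvPolynomial (Fin N') k) f) p =
        pol f P := by
    intro f
    rw [pol_lin, hPd]
    rfl
  simp only [hpol] at hp hW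
  have hPF : pol F (fun i l => P i l) = 0 := by
    ext γ
    rw [coeff_zero]
    by_cases h : γ.degree = e + 1
    · exact hp ⟨γ, mem_AA h⟩
    · exact (pol_hom hF P).coeff_eq_zero h
  refine ⟨P, fun G hG => ⟨?_, ?_⟩⟩
  · unfold Van
    rw [hG, sub_pol]
    exact hPF
  · intro M _ _ Ψ hΨ
    refine ⟨fun l => ∑ β : AA (a + 1) e, coeff β.1 (Ψ ()) * algebraMap k M (W β l), fun u => ?_⟩
    unfold lin
    have h1 : ∀ l, aeval (Sum.elim (X : Fin (a + 1) → MvPolynomial (Fin (a + 1)) M) (fun _ => 0))
        (pderiv (Sum.inr l) G) = pol (pderiv l F) (fun i l => algebraMap k M (P i l)) := by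
      intro l
      rw [hG, pderiv_aeval, sub_pol]
    have h2 : ∀ l α, coeff α (pol (pderiv l F) (fun i l => algebraMap k M (P i l))) =
        algebraMap k M (coeff α (pol (pderiv l F) P)) := fun l α =>
      coeff_pol_map (Algebra.ofId k M) (pderiv l F) P α
    ext α
    rw [coeff_sum]
    simp only [h1, coeff_C_mul, h2]
    by_cases h : α.degree = e
    · have h3 : ∀ β : AA (a + 1) e, ∑ l, coeff β.1 (Ψ ()) * algebraMap k M (W β l) *
          algebraMap k M (coeff α (pol (pderiv l F) P)) =
          coeff β.1 (Ψ ()) * if (⟨α, mem_AA h⟩ : AA (a + 1) e) = β then 1 else 0 := by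
        intro β
        have h4 := congrArg (algebraMap k M) (hW ⟨α, mem_AA h⟩ β)
        have h5 : algebraMap k M (if (⟨α, mem_AA h⟩ : AA (a + 1) e) = β then 1 else 0) =
            if (⟨α, mem_AA h⟩ : AA (a + 1) e) = β then 1 else 0 := by
          split_ifs
          · rw [map_one]
          · rw [map_zero]
        rw [h5, map_sum] at h4
        rw [← h4, Finset.mul_sum]
        refine Finset.sum_congr rfl fun l _ => ?_
        rw [map_mul]
        ring
      have h4 : ∀ l, (∑ β : AA (a + 1) e, coeff β.1 (Ψ ()) * algebraMap k M (W β l)) *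
          algebraMap k M (coeff α (pol (pderiv l F) P)) =
          ∑ β : AA (a + 1) e, coeff β.1 (Ψ ()) * algebraMap k M (W β l) *
            algebraMap k M (coeff α (pol (pderiv l F) P)) := fun l => Finset.sum_mul _ _ _
      rw [Finset.sum_congr rfl fun l _ => h4 l, Finset.sum_comm,
        Finset.sum_congr rfl fun β _ => h3 β, Finset.sum_eq_single ⟨α, mem_AA h⟩]
      · rw [if_pos rfl, mul_one]
      · intro β _ hne
        rw [if_neg (Ne.symm hne), mul_zero]
      · intro h0
        exact absurd (Finset.mem_univ _) h0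
    · have h3 : coeff α (Ψ u) = 0 := (hΨ u).coeff_eq_zero (by
        rw [Nat.add_sub_cancel]
        exact h)
      rw [h3]
      refine Finset.sum_eq_zero fun l _ => ?_
      rw [(pol_hom (hFd l) P).coeff_eq_zero h, map_zero, mul_zero]

/-- **EXS** -/
theorem sEXS : SEXS.{u} := by
  classical
  intro k _ _ _ N a d hd ha hN F hF hs
  refine sEXL k N N a d hd ha hN F (fun l j => if l = j then 1 else 0) hF ?_
  intro z hz
  refine hs z fun i => ?_
  rw [← hz i]
  congr 2
  funext j
  rw [Finset.sum_eq_single j]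
  · rw [if_pos rfl, mul_one]
  · intro l _ hl
    rw [if_neg hl, mul_zero]
  · intro h
    exact absurd (Finset.mem_univ _) h

end Pool.Agent.Helper48.HY
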