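import Pool.Agent.Helper48.HY.Exs
import Pool.Agent.Helper4.HY.Defs3

/-! # Dimension counts with derivations, several forms -/

set_option autoImplicit false
set_option linter.unusedSectionVars false

namespace Pool.Agent.Helper48.HY

open MvPolynomial Pool.Agent.Helper4.HY Pool.Agent.Helper4.QH Pool.Agent.R867.J Pool.Agent.R867.Mov

universe u v w

/-- the condition of nonsingularity -/
def Nsg {k : Type u} [Field k] {r N m : ℕ} (F : Fin r → MvPolynomial (Fin N) k)
    (D : Fin r → Fin m → MvPolynomial (Fin N) k) : Prop :=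
  ∀ x : Fin N → k, (∀ i, aeval x (F i) = 0) →
    ∀ μ : Fin r → k, (∀ l, ∑ i, μ i * aeval x (D i l) = 0) → x = 0 ∨ μ = 0

section
variable {k : Type u} [Field k] [CharZero k] [IsAlgClosed k] {KK : Type v} [Field KK] [Algebra k KK]
  {a r N m : ℕ} {e : Fin r → ℕ}

/-- the equations of the incidence variety -/
noncomputable def inc (F : Fin r → MvPolynomial (Fin N) k)
    (D : Fin r → Fin m → MvPolynomial (Fin N) k) :
    Fin r ⊕ Fin m → MvPolynomial (Fin N ⊕ Fin r) k :=
  Sum.elim (fun i => rename Sum.inl (F i))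
    (fun l => ∑ i, X (Sum.inr i) * rename Sum.inl (D i l))

theorem nullst2 {F : Fin r → MvPolynomial (Fin N) k} {D : Fin r → Fin m → MvPolynomial (Fin N) k}
    (h : Nsg F D) (j : Fin N) (i : Fin r) :
    X (Sum.inl j) * X (Sum.inr i) ∈ (Ideal.span (Set.range (inc F D))).radical := by
  rw [← vanishingIdeal_zeroLocus_eq_radical (K := k), mem_vanishingIdeal_iff]
  intro x hx
  rw [mem_zeroLocus_iff] at hx
  have hF : ∀ i, aeval (fun j => x (Sum.inl j)) (F i) = 0 := by
    intro i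
    have h1 := hx (inc F D (Sum.inl i)) (Ideal.subset_span ⟨_, rfl⟩)
    have h2 : aeval x (rename Sum.inl (F i)) = 0 := h1
    rw [aeval_rename] at h2
    exact h2
  have hD : ∀ l, ∑ i, x (Sum.inr i) * aeval (fun j => x (Sum.inl j)) (D i l) = 0 := by
    intro l
    have h1 := hx (inc F D (Sum.inr l)) (Ideal.subset_span ⟨_, rfl⟩)
    have h2 : aeval x (∑ i, X (Sum.inr i) * rename Sum.inl (D i l)) = 0 := h1
    rw [map_sum] at h2
    rw [← h2]
    refine Finset.sum_congr rfl fun i _ => ?_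
    rw [map_mul, aeval_X, aeval_rename]
    rfl
  rw [map_mul, aeval_X, aeval_X]
  rcases h _ hF (fun i => x (Sum.inr i)) hD with h1 | h1
  · rw [congrFun h1 j]
    simp
  · rw [congrFun h1 i]
    simp

/-- the exponents of the derivatives -/
abbrev GG (a r : ℕ) (e : Fin r → ℕ) : Type := Σ i : Fin r, AA a (e i)

/-- the coordinates are nilpotent modulo the equations -/
theorem rad2 {K₁ : Type v} [Field K₁] [Algebra k K₁] {F : Fin r → MvPolynomial (Fin N) k}
    {D : Fin r → Fin m → MvPolynomial (Fin N) k} (hs : Nsg F D)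
    (hF : ∀ i, (F i).IsHomogeneous (e i + 1)) (hD : ∀ i l, (D i l).IsHomogeneous (e i))
    {c : Fin (a + 1) → k} (hc : c 0 ≠ 0) {lam : GG (a + 1) r e → K₁} {i₀ : Fin r}
    (hlam : ∑ α, lam ⟨i₀, α⟩ * algebraMap k K₁ (mu c (e i₀) α.1) ≠ 0)
    (x₀ : Fin ((a + 1) * N))
    (J : Ideal (MvPolynomial (Fin ((a + 1) * N)) K₁)) (hgJ : ∀ j, gg c j ∈ J)
    (hFJ : ∀ (i : Fin r) (γ : AA (a + 1) (e i + 1)),
      coeff γ.1 (pol (F i) (fun i l => (X ((ev a N).symm (i, l)) :
        MvPolynomial (Fin ((a + 1) * N)) K₁))) ∈ J)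
    (hJ : ∀ l, ∑ p : GG (a + 1) r e, C (lam p) * X x₀ ^ (e i₀ - e p.1) *
      coeff p.2.1 (pol (D p.1 l) (fun i l => (X ((ev a N).symm (i, l)) :
        MvPolynomial (Fin ((a + 1) * N)) K₁))) ∈ J) (x : Fin ((a + 1) * N)) : X x ∈ J.radical := by
  obtain ⟨mk, hmk⟩ : ∃ mk : MvPolynomial (Fin ((a + 1) * N)) K₁ →ₐ[K₁]
    (MvPolynomial (Fin ((a + 1) * N)) K₁ ⧸ J), mk = Ideal.Quotient.mkₐ K₁ J := ⟨_, rfl⟩
  have hmk0 : ∀ f, mk f = 0 ↔ f ∈ J := by
    intro f
    rw [hmk]
    exact Ideal.Quotient.eq_zero_iff_mem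
  obtain ⟨pt, hpt⟩ : ∃ pt : Fin (a + 1) → Fin N → (MvPolynomial (Fin ((a + 1) * N)) K₁ ⧸ J),
    pt = fun i l => mk (X ((ev a N).symm (i, l))) := ⟨_, rfl⟩
  obtain ⟨z, hz⟩ : ∃ z : Fin N → (MvPolynomial (Fin ((a + 1) * N)) K₁ ⧸ J),
    z = fun l => algebraMap k _ (c 0)⁻¹ * pt 0 l := ⟨_, rfl⟩
  have h1 : ∀ i l, pt i l = algebraMap k _ (c i) * z l := by
    intro i l
    rw [hz]
    simp only
    rw [← mul_assoc, ← map_mul]
    refine Fin.cases ?_ (fun i => ?_) i
    · rw [mul_inv_cancel₀ hc, map_one, one_mul]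
    · have h2 := (hmk0 _).2 (hgJ (finProdFinEquiv (i, l)))
      unfold gg at h2
      rw [Equiv.symm_apply_apply, map_sub, map_mul, sub_eq_zero] at h2
      have h3 : mk (C (algebraMap k K₁ (c i.succ / c 0))) = algebraMap k _ (c i.succ * (c 0)⁻¹) := by
        have h4 := mk.commutes (algebraMap k K₁ (c i.succ / c 0))
        rw [← IsScalarTower.algebraMap_apply k K₁ (MvPolynomial (Fin ((a + 1) * N)) K₁ ⧸ J)] at h4
        rw [← div_eq_mul_inv]
        exact h4
      rw [h3] at h2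
      rw [hpt]
      exact h2
  -- the coefficients of the restriction
  have hco : ∀ {d : ℕ} {f : MvPolynomial (Fin N) k} (_ : f.IsHomogeneous d)
      (α : Fin (a + 1) →₀ ℕ), mk (coeff α (pol f (fun i l =>
        (X ((ev a N).symm (i, l)) : MvPolynomial (Fin ((a + 1) * N)) K₁)))) =
      algebraMap k _ (mu c d α) * aeval z f := by
    intro d f hf α
    have h6 := coeff_pol_map (mk.restrictScalars k) f (fun i l =>
      (X ((ev a N).symm (i, l)) : MvPolynomial (Fin ((a + 1) * N)) K₁)) α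
    have h7 : (fun i l => (mk.restrictScalars k) (X ((ev a N).symm (i, l)))) =
        fun i l => algebraMap k (MvPolynomial (Fin ((a + 1) * N)) K₁ ⧸ J) (c i) * z l := by
      funext i l
      rw [← h1, hpt]
      rfl
    rw [h7, pol_one hf] at h6
    exact h6.symm
  have hFz : ∀ i, aeval z (F i) = 0 := by
    intro i
    have hdeg : (Finsupp.single (0 : Fin (a + 1)) (e i + 1)).degree = e i + 1 := by simp
    have h3 := (hmk0 _).2 (hFJ i ⟨Finsupp.single (0 : Fin (a + 1)) (e i + 1), mem_AA hdeg⟩)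
    rw [hco (hF i)] at h3
    have h4 : mu c (e i + 1) (Finsupp.single (0 : Fin (a + 1)) (e i + 1)) = c 0 ^ (e i + 1) := by
      rw [mu_eq c (by rw [Finsupp.sum_single_index rfl]), Finset.prod_eq_single 0]
      · rw [Finsupp.single_eq_same]
        have : (Finsupp.single (0 : Fin (a + 1)) (e i + 1)).multinomial = 1 := by
          unfold Finsupp.multinomial
          rw [Finsupp.sum_single_index rfl, Finsupp.prod_single_index (by simp)]
          exact Nat.div_self (Nat.factorial_pos _)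
        rw [this, Nat.cast_one, one_mul]
      · intro j _ hj
        rw [Finsupp.single_eq_of_ne hj, pow_zero]
      · intro h
        exact absurd (Finset.mem_univ _) h
    rw [h4] at h3
    have h5 : IsUnit (algebraMap k (MvPolynomial (Fin ((a + 1) * N)) K₁ ⧸ J) (c 0 ^ (e i + 1))) :=
      (IsUnit.mk0 _ (pow_ne_zero _ hc)).map _
    exact (h5.mul_right_eq_zero).1 h3
  obtain ⟨T, hT⟩ : ∃ T : Fin r → (MvPolynomial (Fin ((a + 1) * N)) K₁ ⧸ J),
    T = fun i => mk (X x₀) ^ (e i₀ - e i) *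
      algebraMap K₁ _ (∑ α, lam ⟨i, α⟩ * algebraMap k K₁ (mu c (e i) α.1)) := ⟨_, rfl⟩
  have hDz : ∀ l, ∑ i, T i * aeval z (D i l) = 0 := by
    intro l
    have h3 := (hmk0 _).2 (hJ l)
    rw [map_sum] at h3
    rw [← h3, Fintype.sum_sigma]
    refine Finset.sum_congr rfl fun i _ => ?_
    rw [hT]
    simp only
    rw [map_sum, Finset.mul_sum, Finset.sum_mul]
    refine Finset.sum_congr rfl fun α _ => ?_
    have h5 : mk (C (lam ⟨i, α⟩)) = algebraMap K₁ _ (lam ⟨i, α⟩) := mk.commutes _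
    have h6 : mk (C (lam ⟨i, α⟩) * X x₀ ^ (e i₀ - e i) * coeff α.1 (pol (D i l) (fun i l =>
        (X ((ev a N).symm (i, l)) : MvPolynomial (Fin ((a + 1) * N)) K₁)))) =
        algebraMap K₁ _ (lam ⟨i, α⟩) * mk (X x₀) ^ (e i₀ - e i) *
          (algebraMap k _ (mu c (e i) α.1) * aeval z (D i l)) := by
      rw [map_mul, map_mul, h5, map_pow, hco (hD i l)]
    refine Eq.trans ?_ h6.symm
    rw [map_mul, ← IsScalarTower.algebraMap_apply k K₁ (MvPolynomial (Fin ((a + 1) * N)) K₁ ⧸ J)]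
    ring
  have hTi : IsUnit (T i₀) := by
    rw [hT]
    simp only
    rw [Nat.sub_self, pow_zero, one_mul]
    exact (IsUnit.mk0 _ hlam).map _
  have h3 : ∀ l, ∃ n, z l ^ n = 0 := by
    intro l
    obtain ⟨n, hn⟩ := nullst2 hs l i₀
    refine ⟨n, ?_⟩
    have h4 : Ideal.span (Set.range (inc F D)) ≤ RingHom.ker
        (aeval (Sum.elim z T) : MvPolynomial (Fin N ⊕ Fin r) k →ₐ[k]
          (MvPolynomial (Fin ((a + 1) * N)) K₁ ⧸ J)) := by
      rw [Ideal.span_le]
      rintro _ ⟨i | l', rfl⟩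
      · show aeval (Sum.elim z T) (rename Sum.inl (F i)) = 0
        rw [aeval_rename]
        exact hFz i
      · show aeval (Sum.elim z T) (∑ i, X (Sum.inr i) * rename Sum.inl (D i l')) = 0
        rw [map_sum, ← hDz l']
        refine Finset.sum_congr rfl fun i _ => ?_
        rw [map_mul, aeval_X, aeval_rename]
        rfl
    have h5 := h4 hn
    rw [RingHom.mem_ker, map_pow, map_mul, aeval_X, aeval_X, mul_pow] at h5
    exact ((hTi.pow n).mul_left_eq_zero).1 h5
  obtain ⟨n, hn⟩ := h3 ((ev a N) x).2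
  refine ⟨n, ?_⟩
  rw [← hmk0, map_pow]
  have h4 : mk (X x) = pt ((ev a N) x).1 ((ev a N) x).2 := by
    rw [hpt]
    simp only
    rw [Prod.mk.eta, Equiv.symm_apply_apply]
  rw [h4, h1, mul_pow, hn, mul_zero]

theorem upper2_aux {F : Fin r → MvPolynomial (Fin N) k}
    {D : Fin r → Fin m → MvPolynomial (Fin N) k} (hs : Nsg F D)
    (hF : ∀ i, (F i).IsHomogeneous (e i + 1)) (hD : ∀ i l, (D i l).IsHomogeneous (e i))
    (lam : GG (a + 1) r e → KK) {i₀ : Fin r} {α₀ : AA (a + 1) (e i₀)} (hl : lam ⟨i₀, α₀⟩ = 1)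
    (hmax : ∀ p, lam p ≠ 0 → e p.1 ≤ e i₀)
    (P : Fin (a + 1) → Fin N → KK) (x₀ : Fin (a + 1) × Fin N) (hP1 : P x₀.1 x₀.2 = 1)
    (hG : ∀ (i : Fin r) (γ : AA (a + 1) (e i + 1)), coeff γ.1 (pol (F i) P) = 0)
    (h : ∀ l, ∑ p, lam p * coeff p.2.1 (pol (D p.1 l) P) = 0)
    {K₁ : Type v} [Field K₁] [Algebra k K₁] [Algebra K₁ KK] [IsScalarTower k K₁ KK]
    (lam1 : GG (a + 1) r e → K₁) (hl1 : ∀ α, algebraMap K₁ KK (lam1 α) = lam α)
    (hk : ∀ D : Derivation k (MM KK) (MM KK), (∀ α, D (algebraMap KK (MM KK) (lam α)) = 0) →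
      ∀ z : K₁, D (algebraMap K₁ (MM KK) z) = 0) :
    Module.finrank (MM KK) (LinearMap.range (evW (k := k)
      (fun x : Fin (a + 1) × Fin N => P x.1 x.2))) ≤
        (Fintype.card (GG (a + 1) r e) - 1) + a * N := by
  classical
  have hc0 : CharZero KK := charZero_of_injective_algebraMap (algebraMap k KK).injective
  have hcM : CharZero (MM KK) := charZero_of_injective_algebraMap (algebraMap k (MM KK)).injective
  have hinf : Infinite k := inferInstance
  obtain ⟨c, hc, hcl⟩ := exists_c (k := k) (lam := fun α : AA (a + 1) (e i₀) => lam ⟨i₀, α⟩) (by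
    intro h0
    have h1 : lam ⟨i₀, α₀⟩ = 0 := congrFun h0 α₀
    rw [hl] at h1
    exact one_ne_zero h1)
  let φ : MvPolynomial (Fin ((a + 1) * N)) K₁ →ₐ[K₁] MM KK :=
    coneHom (k := K₁) (fun j => P (ev a N j).1 (ev a N j).2)
  have hφX : ∀ i l, φ (X ((ev a N).symm (i, l))) = tau KK * algebraMap KK (MM KK) (P i l) :=
    fun i l => coneHom_X P i l
  have hlam1 : ∑ α, lam1 ⟨i₀, α⟩ * algebraMap k K₁ (mu c (e i₀) α.1) ≠ 0 := by
    intro h0
    apply hcl
    have h1 := congrArg (algebraMap K₁ KK) h0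
    rw [map_sum, map_zero] at h1
    rw [← h1]
    refine Finset.sum_congr rfl fun α _ => ?_
    rw [map_mul, hl1, ← IsScalarTower.algebraMap_apply k K₁ KK]
  have hcφ : ∀ {d : ℕ} {f : MvPolynomial (Fin N) k} (_ : f.IsHomogeneous d)
      (α : Fin (a + 1) →₀ ℕ), φ (coeff α (pol f (fun i l =>
        (X ((ev a N).symm (i, l)) : MvPolynomial (Fin ((a + 1) * N)) K₁)))) =
      tau KK ^ d * algebraMap KK (MM KK) (coeff α (pol f P)) := by
    intro d f hf α
    have h6 := coeff_pol_map (φ.restrictScalars k) f (fun i l =>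
      (X ((ev a N).symm (i, l)) : MvPolynomial (Fin ((a + 1) * N)) K₁)) α
    have h7 : (fun i l => (φ.restrictScalars k) (X ((ev a N).symm (i, l)))) =
        fun i l => tau KK * (IsScalarTower.toAlgHom k KK (MM KK)) (P i l) := by
      funext i l
      exact hφX i l
    rw [h7, pol_smul hf, coeff_C_mul, coeff_pol_map] at h6
    exact h6.symm
  have hrad : ∀ x, X x ∈ (RingHom.ker φ ⊔ Ideal.span (Set.range (gg (K₁ := K₁) c))).radical := by
    refine rad2 hs hF hD hc hlam1 ((ev a N).symm x₀) _ (fun j => ?_) (fun i γ => ?_) (fun l => ?_)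
    · exact Ideal.mem_sup_right (Ideal.subset_span ⟨j, rfl⟩)
    · refine Ideal.mem_sup_left ?_
      rw [RingHom.mem_ker, hcφ (hF i), hG i γ, map_zero, mul_zero]
    · refine Ideal.mem_sup_left ?_
      rw [RingHom.mem_ker, map_sum]
      have h1 : ∀ p : GG (a + 1) r e, φ (C (lam1 p) * X ((ev a N).symm x₀) ^ (e i₀ - e p.1) *
          coeff p.2.1 (pol (D p.1 l) (fun i l =>
          (X ((ev a N).symm (i, l)) : MvPolynomial (Fin ((a + 1) * N)) K₁)))) =
          tau KK ^ (e i₀) * algebraMap KK (MM KK) (lam p * coeff p.2.1 (pol (D p.1 l) P)) := by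
        intro p
        have h2 : φ (C (lam1 p)) = algebraMap KK (MM KK) (lam p) := by
          have h3 : φ (C (lam1 p)) = algebraMap K₁ (MM KK) (lam1 p) := φ.commutes (lam1 p)
          rw [h3, IsScalarTower.algebraMap_apply K₁ KK (MM KK), hl1]
        have h3 : φ (X ((ev a N).symm x₀)) = tau KK := by
          have := hφX x₀.1 x₀.2
          rw [Prod.mk.eta, hP1, map_one, mul_one] at this
          exact this
        rw [map_mul, map_mul, map_pow, h2, h3, hcφ (hD p.1 l), map_mul]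
        by_cases hp : lam p = 0
        · rw [hp, map_zero]
          ring
        · have h4 : tau KK ^ (e i₀) = tau KK ^ (e i₀ - e p.1) * tau KK ^ (e p.1) := by
            rw [← pow_add, Nat.sub_add_cancel (hmax p hp)]
          rw [h4]
          ring
      rw [Finset.sum_congr rfl fun α _ => h1 α, ← Finset.mul_sum, ← map_sum, h l, map_zero, mul_zero]
  have hint := Pool.Agent.Helper64.QH.sInt K₁ (MM KK) ((a + 1) * N) (a * N) φ
    (coneHom_homKer _) (gg (K₁ := K₁) c) (fun _ => 1) (fun _ => one_pos) (fun j => gg_hom c j) hrad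
  let evB : Derivation k (MM KK) (MM KK) →ₗ[MM KK]
      (({α : GG (a + 1) r e // α ≠ ⟨i₀, α₀⟩} ⊕ Fin (a * N)) → MM KK) :=
    { toFun := fun D => Sum.elim (fun α => D (algebraMap KK (MM KK) (lam α.1)))
        (fun j => D (φ (gg (K₁ := K₁) c j)))
      map_add' := fun D E => by
        funext x
        rcases x with α | j <;> rfl
      map_smul' := fun t D => by
        funext x
        rcases x with α | j <;> rfl }
  have hker : LinearMap.ker evB ≤ LinearMap.ker (evW (k := k)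
      (fun x : Fin (a + 1) × Fin N => P x.1 x.2)) := by
    intro D hD
    rw [LinearMap.mem_ker] at hD ⊢
    have hDl : ∀ α, D (algebraMap KK (MM KK) (lam α)) = 0 := by
      intro α
      by_cases hα : α = ⟨i₀, α₀⟩
      · rw [hα, hl, map_one, Derivation.map_one_eq_zero]
      · exact congrFun hD (Sum.inl ⟨α, hα⟩)
    have hDg : ∀ j, D (φ (gg (K₁ := K₁) c j)) = 0 := fun j => congrFun hD (Sum.inr j)
    have hDk : ∀ z : K₁, D (algebraMap K₁ (MM KK) z) = 0 := hk D hDl
    let D1 : Derivation K₁ (MM KK) (MM KK) := Derivation.mk'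
      { toFun := D
        map_add' := fun x y => map_add D x y
        map_smul' := fun t x => by
          show D (t • x) = t • D x
          rw [Algebra.smul_def, Algebra.smul_def, Derivation.leibniz, hDk, smul_zero, add_zero,
            smul_eq_mul] } (fun x y => D.leibniz x y)
    funext x
    have h1 : D1 (φ (X ((ev a N).symm x))) = 0 := by
      refine der_cl D1 (S := Set.range fun j => φ (gg (K₁ := K₁) c j)) ?_ ?_
      · rintro _ ⟨j, rfl⟩
        exact hDg j
      · exact (hint ((ev a N).symm x)).isAlgebraic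
    have h2 := hφX x.1 x.2
    rw [Prod.mk.eta] at h2
    rw [h2] at h1
    exact h1
  refine (rank_le _ evB hker).trans (le_of_eq ?_)
  rw [Module.finrank_fintype_fun_eq_card, Fintype.card_sum, Fintype.card_fin]
  congr 1
  rw [Fintype.card_subtype_compl, Fintype.card_subtype_eq]

/-- the elements killed by the derivations which kill `lam` -/
theorem upper2 {F : Fin r → MvPolynomial (Fin N) k}
    {D : Fin r → Fin m → MvPolynomial (Fin N) k} (hs : Nsg F D)
    (hF : ∀ i, (F i).IsHomogeneous (e i + 1)) (hD : ∀ i l, (D i l).IsHomogeneous (e i))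
    {lam : GG (a + 1) r e → KK} (hl : lam ≠ 0)
    (P : Fin (a + 1) → Fin N → KK) (x₀ : Fin (a + 1) × Fin N) (hP1 : P x₀.1 x₀.2 = 1)
    (hG : ∀ (i : Fin r) (γ : AA (a + 1) (e i + 1)), coeff γ.1 (pol (F i) P) = 0)
    (h : ∀ l, ∑ p, lam p * coeff p.2.1 (pol (D p.1 l) P) = 0) :
    Module.finrank (MM KK) (LinearMap.range (evW (k := k)
      (fun x : Fin (a + 1) × Fin N => P x.1 x.2))) ≤
        (Fintype.card (GG (a + 1) r e) - 1) + a * N := by
  classical
  obtain ⟨p₁, hp₁⟩ := Function.ne_iff.1 hl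
  have hp₁ : lam p₁ ≠ 0 := hp₁
  obtain ⟨p₀, hp₀, hmax⟩ := Finset.exists_max_image (Finset.univ.filter fun p => lam p ≠ 0)
    (fun p => e p.1) ⟨p₁, by simp [hp₁]⟩
  have hα₀ : lam p₀ ≠ 0 := (Finset.mem_filter.1 hp₀).2
  obtain ⟨i₀, α₀⟩ := p₀
  refine upper2_aux hs hF hD (fun p => (lam ⟨i₀, α₀⟩)⁻¹ * lam p) (α₀ := α₀)
    (inv_mul_cancel₀ hα₀) ?_ P x₀ hP1 hG ?_
    (K₁ := ↥(k1 (k := k) (fun p => (lam ⟨i₀, α₀⟩)⁻¹ * lam p)))
    (fun p => ⟨(lam ⟨i₀, α₀⟩)⁻¹ * lam p, fun D hD => hD p⟩) (fun _ => rfl) ?_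
  · intro p hp
    refine hmax p (Finset.mem_filter.2 ⟨Finset.mem_univ _, fun h0 => hp ?_⟩)
    rw [h0, mul_zero]
  · intro l
    have e1 : ∑ p, (lam ⟨i₀, α₀⟩)⁻¹ * lam p * coeff p.2.1 (pol (D p.1 l) P) =
        (lam ⟨i₀, α₀⟩)⁻¹ * ∑ p, lam p * coeff p.2.1 (pol (D p.1 l) P) := by
      rw [Finset.mul_sum]
      exact Finset.sum_congr rfl fun α _ => by ring
    rw [e1, h l, mul_zero]
  · intro D hD z
    have h1 : algebraMap ↥(k1 (k := k) (fun p => (lam ⟨i₀, α₀⟩)⁻¹ * lam p)) (MM KK) z =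
        algebraMap KK (MM KK) (z : KK) :=
      IsScalarTower.algebraMap_apply ↥(k1 (k := k) (fun p => (lam ⟨i₀, α₀⟩)⁻¹ * lam p)) KK (MM KK) z
    exact (congrArg D h1).trans (z.2 D hD)

end

end Pool.Agent.Helper48.HY
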