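import Pool.Agent.Helper4.HY.Defs
import Pool.Agent.Helper4.QH.ConeN

/-! # Polynomials along a linear space -/

set_option autoImplicit false

namespace Pool.Agent.Helper48.HY

open MvPolynomial Pool.Agent.Helper4.HY Pool.Agent.Helper4.QH

universe u v w

section
variable {k : Type u} [Field k] {a N : ℕ}

/-- the restriction of `f` to the linear space spanned by the points `Q i` -/
noncomputable def pol {R : Type v} [CommRing R] [Algebra k R] (f : MvPolynomial (Fin N) k)
    (Q : Fin a → Fin N → R) : MvPolynomial (Fin a) R :=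
  aeval (fun l => ∑ i, Q i l • (X i : MvPolynomial (Fin a) R)) f

theorem pol_map {R : Type v} [CommRing R] [Algebra k R] {R' : Type w} [CommRing R'] [Algebra k R']
    (h : R →ₐ[k] R') (f : MvPolynomial (Fin N) k) (Q : Fin a → Fin N → R) :
    map (h : R →+* R') (pol f Q) = pol f (fun i l => h (Q i l)) := by
  have h1 : mapAlgHom h (pol f Q) = pol f (fun i l => h (Q i l)) := by
    unfold pol
    have h2 := congrFun (congrArg DFunLike.coe (comp_aeval
      (fun l => ∑ i, Q i l • (X i : MvPolynomial (Fin a) R)) (mapAlgHom h))) f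
    have h3 : (fun l => mapAlgHom h (∑ i, Q i l • (X i : MvPolynomial (Fin a) R))) =
        fun l => ∑ i, h (Q i l) • (X i : MvPolynomial (Fin a) R') := by
      funext l
      rw [map_sum]
      refine Finset.sum_congr rfl fun i _ => ?_
      rw [smul_eq_C_mul, smul_eq_C_mul, map_mul]
      simp
    rw [h3] at h2
    exact h2
  exact h1

theorem coeff_pol_map {R : Type v} [CommRing R] [Algebra k R] {R' : Type w} [CommRing R']
    [Algebra k R'] (h : R →ₐ[k] R') (f : MvPolynomial (Fin N) k) (Q : Fin a → Fin N → R)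
    (α : Fin a →₀ ℕ) : coeff α (pol f (fun i l => h (Q i l))) = h (coeff α (pol f Q)) := by
  rw [← pol_map, coeff_map]
  rfl

theorem pol_hom {R : Type v} [CommRing R] [Algebra k R] {f : MvPolynomial (Fin N) k} {d : ℕ}
    (hf : f.IsHomogeneous d) (Q : Fin a → Fin N → R) : (pol f Q).IsHomogeneous d := by
  have h : ∀ l, (∑ i, Q i l • (X i : MvPolynomial (Fin a) R)).IsHomogeneous 1 := by
    intro l
    refine IsHomogeneous.sum _ _ _ fun i _ => ?_
    rw [smul_eq_C_mul]
    have := (isHomogeneous_C (Fin a) (Q i l)).mul (isHomogeneous_X R i)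
    rwa [zero_add] at this
  have h2 := hf.aeval _ h
  rwa [one_mul] at h2

theorem pol_smul {R : Type v} [CommRing R] [Algebra k R] {f : MvPolynomial (Fin N) k} {d : ℕ}
    (hf : f.IsHomogeneous d) (t : R) (Q : Fin a → Fin N → R) :
    pol f (fun i l => t * Q i l) = C (t ^ d) * pol f Q := by
  unfold pol
  rw [map_pow, ← aeval_hom_smul hf]
  congr 2
  funext l
  rw [Finset.mul_sum]
  refine Finset.sum_congr rfl fun i _ => ?_
  rw [smul_eq_C_mul, smul_eq_C_mul, map_mul, mul_assoc]

/-- the coefficients of the power of a linear form -/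
noncomputable def mu (c : Fin a → k) (e : ℕ) (α : Fin a →₀ ℕ) : k :=
  coeff α ((∑ i, c i • (X i : MvPolynomial (Fin a) k)) ^ e)

theorem pol_one {R : Type v} [CommRing R] [Algebra k R] {f : MvPolynomial (Fin N) k} {e : ℕ}
    (hf : f.IsHomogeneous e) (c : Fin a → k) (z : Fin N → R) (α : Fin a →₀ ℕ) :
    coeff α (pol f (fun i l => algebraMap k R (c i) * z l)) =
      algebraMap k R (mu c e α) * aeval z f := by
  have h1 : pol f (fun i l => algebraMap k R (c i) * z l) =
      (map (algebraMap k R) (∑ i, c i • (X i : MvPolynomial (Fin a) k))) ^ e * C (aeval z f) := by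
    unfold pol
    have h2 : (fun l => ∑ i, (algebraMap k R (c i) * z l) • (X i : MvPolynomial (Fin a) R)) =
        fun l => map (algebraMap k R) (∑ i, c i • (X i : MvPolynomial (Fin a) k)) * C (z l) := by
      funext l
      rw [map_sum, Finset.sum_mul]
      refine Finset.sum_congr rfl fun i _ => ?_
      rw [smul_eq_C_mul, smul_eq_C_mul, map_mul, map_mul, map_C, map_X]
      ring
    rw [h2, aeval_hom_smul hf]
    have h3 : aeval (fun l => (C (z l) : MvPolynomial (Fin a) R)) f = C (aeval z f) := by
      have := aeval_algebraMap_apply (R := k) (MvPolynomial (Fin a) R) z f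
      exact this
    rw [h3]
  rw [h1, ← map_pow, mul_comm, coeff_C_mul, coeff_map, mul_comm]
  rfl

theorem mu_eq (c : Fin a → k) {e : ℕ} {α : Fin a →₀ ℕ} (hα : α.sum (fun _ m => m) = e) :
    mu c e α = α.multinomial * ∏ i, c i ^ α i := by
  unfold mu
  rw [coeff_linearCombination_X_pow_of_fintype, if_pos hα, Finsupp.prod_fintype]
  intro i
  rw [pow_zero]

/-- the exponents of degree `e` -/
abbrev AA (a e : ℕ) : Type := ↥(Finset.finsuppAntidiag (Finset.univ : Finset (Fin a)) e)

theorem AA_sum {a e : ℕ} (α : AA a e) : α.1.sum (fun _ m => m) = e := by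
  have h := (Finset.mem_finsuppAntidiag.1 α.2).1
  rw [Finsupp.sum_fintype]
  · exact h
  · intro _
    rfl

theorem mem_AA {a e : ℕ} {α : Fin a →₀ ℕ} (h : α.degree = e) :
    α ∈ Finset.finsuppAntidiag (Finset.univ : Finset (Fin a)) e := by
  rw [Finset.mem_finsuppAntidiag]
  refine ⟨?_, Finset.subset_univ _⟩
  rw [← h, Finsupp.degree_eq_sum]

theorem card_AA (a e : ℕ) : Fintype.card (AA a e) = (a + e - 1).choose e := by
  rw [Fintype.card_coe, Finset.card_finsuppAntidiag_nat_eq_choose, Finset.card_univ,
    Fintype.card_fin]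

/-- a linear form whose power is not killed by a functional -/
theorem exists_c {KK : Type v} [Field KK] [CharZero KK] [Infinite k] [Algebra k KK] {e : ℕ}
    {lam : AA (a + 1) e → KK} (hl : lam ≠ 0) : ∃ c : Fin (a + 1) → k, c 0 ≠ 0 ∧
      ∑ α, lam α * algebraMap k KK (mu c e α.1) ≠ 0 := by
  classical
  obtain ⟨α₀, hα₀⟩ := Function.ne_iff.1 hl
  obtain ⟨p, hp⟩ : ∃ p : MvPolynomial (Fin (a + 1)) KK,
    p = ∑ α : AA (a + 1) e, monomial α.1 (lam α * (α.1.multinomial : KK)) := ⟨_, rfl⟩
  have hp0 : p ≠ 0 := by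
    intro h0
    have h1 : coeff α₀.1 p = lam α₀ * (α₀.1.multinomial : KK) := by
      rw [hp, coeff_sum, Finset.sum_eq_single α₀]
      · rw [coeff_monomial, if_pos rfl]
      · intro α _ hne
        rw [coeff_monomial, if_neg]
        exact fun h => hne (Subtype.ext h)
      · intro h
        exact absurd (Finset.mem_univ _) h
    rw [h0, coeff_zero] at h1
    have h2 : (α₀.1.multinomial : KK) ≠ 0 := by
      have : α₀.1.multinomial ≠ 0 := by
        unfold Finsupp.multinomial
        exact (Nat.multinomial_pos _ _).ne'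
      exact_mod_cast this
    rcases mul_eq_zero.1 h1.symm with h3 | h3
    · exact hα₀ h3
    · exact h2 h3
  have h1 : p * X 0 ≠ 0 := mul_ne_zero hp0 (X_ne_zero 0)
  have h2 : ∃ x ∈ Set.pi Set.univ (fun _ : Fin (a + 1) => Set.range (algebraMap k KK)),
      eval x (p * X 0) ≠ 0 := by
    by_contra hcon
    push Not at hcon
    exact h1 (funext_set _ (fun _ => Set.infinite_range_of_injective (algebraMap k KK).injective)
      (q := 0) fun x hx => by rw [hcon x hx, map_zero])
  obtain ⟨x, hx, hxp⟩ := h2
  choose c hc using fun i => hx i (Set.mem_univ i)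
  rw [map_mul, eval_X] at hxp
  refine ⟨c, ?_, ?_⟩
  · intro h0
    apply hxp
    rw [← hc 0, h0, map_zero, mul_zero]
  · intro h0
    apply hxp
    have h3 : eval x p = ∑ α, lam α * algebraMap k KK (mu c e α.1) := by
      rw [hp, map_sum]
      refine Finset.sum_congr rfl fun α _ => ?_
      rw [eval_monomial, mu_eq c (AA_sum α), Finsupp.prod_fintype _ _ (fun i => pow_zero _), map_mul,
        map_natCast, map_prod, mul_assoc]
      refine congrArg₂ _ rfl (congrArg₂ _ rfl (Finset.prod_congr rfl fun i _ => ?_))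
      rw [map_pow, hc]
    rw [h3, h0, zero_mul]

end

end Pool.Agent.Helper48.HY
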